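import Mathlib

set_option autoImplicit false

/-!
# Digraphs, the restricted numerical range and the Laplacian spread
-/

namespace Pool.Agent.Lib.MP_e61cf5_co

/-- A digraph on the vertex set `Fin n`, without loops and without repeated arcs:
`arc i j = true` means that `(i,j)` is an arc. -/
structure Dig (n : ℕ) where
  arc : Fin n → Fin n → Bool
  loopless : ∀ i, arc i i = false

namespace Dig

variable {n : ℕ}

/-- The out-degree of the vertex `i`. -/
def outDeg (Γ : Dig n) (i : Fin n) : ℕ := (Finset.univ.filter fun j => Γ.arc i j = true).card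

/-- The Laplacian matrix `L = D - A`. -/
def lap (Γ : Dig n) : Matrix (Fin n) (Fin n) ℝ :=
  Matrix.of fun i j => (if i = j then (Γ.outDeg i : ℝ) else 0) - (if Γ.arc i j = true then 1 else 0)

/-- The Laplacian matrix, as a complex matrix. -/
def lapC (Γ : Dig n) : Matrix (Fin n) (Fin n) ℂ := Γ.lap.map (fun r : ℝ => (r : ℂ))

/-- The restricted numerical range `{x* L x : x ∈ ℂⁿ, x ⊥ e, ‖x‖ = 1}`. -/
def restrictedRange (Γ : Dig n) : Set ℂ :=
  {z | ∃ x : Fin n → ℂ, ∑ i, x i = 0 ∧ ∑ i, ‖x i‖ ^ 2 = 1 ∧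
    z = dotProduct (star x) (Γ.lapC.mulVec x)}

/-- The set of values `xᵀ L x`, `x ∈ ℝⁿ`, `x ⊥ e`, `‖x‖ = 1`. -/
def realValues (Γ : Dig n) : Set ℝ :=
  {t | ∃ x : Fin n → ℝ, ∑ i, x i = 0 ∧ ∑ i, x i ^ 2 = 1 ∧ t = dotProduct x (Γ.lap.mulVec x)}

/-- `α(Γ)`, the least value of `xᵀ L x` over real unit vectors `x ⊥ e`. -/
noncomputable def alpha (Γ : Dig n) : ℝ := sInf Γ.realValues

/-- `β(Γ)`, the greatest value of `xᵀ L x` over real unit vectors `x ⊥ e`. -/
noncomputable def beta (Γ : Dig n) : ℝ := sSup Γ.realValues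

/-- The Laplacian spread. -/
noncomputable def spread (Γ : Dig n) : ℝ := Γ.beta - Γ.alpha

/-- `Γ` is polygonal: for some matrix `Q` of size `n × (n-1)` whose columns are an orthonormal basis
of `e^⊥`, the restricted numerical range is the convex hull of the set of eigenvalues of `Q* L Q`. -/
def IsPolygonal (Γ : Dig n) : Prop :=
  ∃ Q : Matrix (Fin n) (Fin (n - 1)) ℂ, Q.conjTranspose * Q = 1 ∧ (∀ k, ∑ i, Q i k = 0) ∧
    Γ.restrictedRange = convexHull ℝ (spectrum ℂ (Q.conjTranspose * Γ.lapC * Q))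

end Dig

end Pool.Agent.Lib.MP_e61cf5_co
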