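import Pool.Agent.Lib.MP_e61cf5_co.Graph
import Pool.Agent.Lib.MP_e61cf5_co.Defs

set_option autoImplicit false

namespace Pool.Agent.Lib.MP_e61cf5_co

open Finset

namespace Dig

variable {n : ℕ} (Γ : Dig n)

/-- 0/1 value of an arc -/
def A (i j : Fin n) : ℕ := if Γ.arc i j = true then 1 else 0

lemma A_self (i : Fin n) : Γ.A i i = 0 := by simp [A, Γ.loopless i]

lemma outDeg_eq (i : Fin n) : Γ.outDeg i = ∑ j, Γ.A i j := by
  rw [outDeg, card_filter]; rfl

/-- the weight `d_i + d_j + a_ij + a_ji` -/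
def f (i j : Fin n) : ℕ := Γ.outDeg i + Γ.outDeg j + Γ.A i j + Γ.A j i

lemma f_comm (i j : Fin n) : Γ.f i j = Γ.f j i := by rw [f, f]; ring

/-- quadratic form -/
noncomputable def q (x : Fin n → ℝ) : ℝ := dotProduct x (Γ.lap.mulVec x)

lemma q_eq (x : Fin n → ℝ) :
    Γ.q x = ∑ i, (Γ.outDeg i : ℝ) * x i ^ 2 - ∑ i, ∑ j, (Γ.A i j : ℝ) * (x i * x j) := by
  rw [q]
  simp only [dotProduct, Matrix.mulVec, lap, Matrix.of_apply, sub_mul, sum_sub_distrib, mul_sub]
  congr 1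
  · apply sum_congr rfl; intro i _
    rw [Finset.sum_eq_single i]
    · simp; ring
    · intro j _ hj; rw [if_neg (fun h => hj h.symm)]; ring
    · intro h; exact absurd (mem_univ _) h
  · apply sum_congr rfl; intro i _
    rw [Finset.mul_sum]
    apply sum_congr rfl; intro j _
    simp only [A]
    split_ifs <;> simp

lemma q_eq_f (x : Fin n → ℝ) (hx : ∑ i, x i = 0) :
    Γ.q x = -(1 / 2) * ∑ i, ∑ j, (if i = j then 0 else (Γ.f i j : ℝ) * (x i * x j)) := by
  have h1 : ∀ i j, (if i = j then 0 else (Γ.f i j : ℝ) * (x i * x j)) =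
      (Γ.outDeg i : ℝ) * (x i * x j) + (Γ.outDeg j : ℝ) * (x i * x j) +
      (Γ.A i j : ℝ) * (x i * x j) + (Γ.A j i : ℝ) * (x i * x j) -
      (if i = j then 2 * (Γ.outDeg i : ℝ) * (x i * x j) else 0) := by
    intro i j
    split_ifs with h
    · subst h; rw [Γ.A_self]; push_cast; ring
    · rw [f]; push_cast; ring
  simp_rw [h1, sum_sub_distrib, sum_add_distrib]
  have e1 : ∑ i, ∑ j, (Γ.outDeg i : ℝ) * (x i * x j) = 0 := by
    apply sum_eq_zero; intro i _
    rw [← mul_sum, ← mul_sum, hx]; ring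
  have e2 : ∑ i, ∑ j, (Γ.outDeg j : ℝ) * (x i * x j) = 0 := by
    rw [sum_comm]
    apply sum_eq_zero; intro j _
    rw [← mul_sum, ← sum_mul, hx]; ring
  have e3 : ∑ i, ∑ j, (Γ.A j i : ℝ) * (x i * x j) = ∑ i, ∑ j, (Γ.A i j : ℝ) * (x i * x j) := by
    rw [sum_comm]
    apply sum_congr rfl; intro i _
    apply sum_congr rfl; intro j _
    ring
  have e4 : ∑ i, ∑ j, (if i = j then 2 * (Γ.outDeg i : ℝ) * (x i * x j) else 0)
      = 2 * ∑ i, (Γ.outDeg i : ℝ) * x i ^ 2 := by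
    rw [mul_sum]
    apply sum_congr rfl; intro i _
    rw [sum_ite_eq, if_pos (mem_univ i)]; ring
  rw [e1, e2, e3, e4, Γ.q_eq]
  ring

/-- The graph of the pairs of large weight. -/
def gr (m : ℕ) : SimpleGraph (Fin n) where
  Adj i j := i ≠ j ∧ Γ.f i j = m + 1
  symm := ⟨fun i j h => ⟨h.1.symm, by rw [Γ.f_comm]; exact h.2⟩⟩
  loopless := ⟨fun i h => h.1 rfl⟩

instance (m : ℕ) : DecidableRel (Γ.gr m).Adj := fun i j => by
  unfold gr; exact inferInstanceAs (Decidable (i ≠ j ∧ Γ.f i j = m + 1))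

lemma gr_adj {m : ℕ} {i j : Fin n} : (Γ.gr m).Adj i j ↔ i ≠ j ∧ Γ.f i j = m + 1 := Iff.rfl

lemma q_eq_gr {m : ℕ} (hm : ∀ i j, i ≠ j → Γ.f i j = m ∨ Γ.f i j = m + 1) (x : Fin n → ℝ)
    (hx : ∑ i, x i = 0) : Γ.q x = (m / 2 : ℝ) * nsq x - (1 / 2) * qG (Γ.gr m) x := by
  rw [Γ.q_eq_f x hx, qG_eq]
  have h1 : ∀ i j, (if i = j then 0 else (Γ.f i j : ℝ) * (x i * x j)) =
      (m : ℝ) * (x i * x j) - (if i = j then (m : ℝ) * (x i * x j) else 0) +
      (if (Γ.gr m).Adj i j then x i * x j else 0) := by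
    intro i j
    by_cases h : i = j
    · subst h; simp
    · rcases hm i j h with h' | h'
      · have : ¬ (Γ.gr m).Adj i j := by rw [gr_adj, h']; rintro ⟨-, h⟩; omega
        rw [if_neg h, if_neg h, if_neg this, h']; ring
      · have : (Γ.gr m).Adj i j := by rw [gr_adj]; exact ⟨h, h'⟩
        rw [if_neg h, if_neg h, if_pos this, h']; push_cast; ring
  simp_rw [h1, sum_add_distrib, sum_sub_distrib]
  have e1 : ∑ i, ∑ j, (m : ℝ) * (x i * x j) = 0 := by
    apply sum_eq_zero; intro i _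
    rw [← mul_sum, ← mul_sum, hx]; ring
  have e2 : ∑ i, ∑ j, (if i = j then (m : ℝ) * (x i * x j) else 0) = m * nsq x := by
    rw [nsq, mul_sum]
    apply sum_congr rfl; intro i _
    rw [sum_ite_eq, if_pos (mem_univ i)]; ring
  rw [e1, e2]
  ring

lemma sum_f : ∑ i, ∑ j, (if i = j then 0 else Γ.f i j) = 2 * n * ∑ i, Γ.outDeg i := by
  have h1 : ∑ i, ∑ j, (if i = j then 0 else Γ.f i j) + 2 * ∑ i, Γ.outDeg i =
      ∑ i, ∑ j, Γ.f i j := by
    rw [mul_sum, ← sum_add_distrib]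
    apply sum_congr rfl; intro i _
    have : ∑ j, Γ.f i j = ∑ j, ((if i = j then 0 else Γ.f i j) + (if i = j then Γ.f i j else 0)) := by
      apply sum_congr rfl; intro j _
      split_ifs <;> simp
    rw [this, sum_add_distrib, sum_ite_eq, if_pos (mem_univ i), f, Γ.A_self]
    ring
  have h2 : ∑ i, ∑ j, Γ.f i j = 2 * n * ∑ i, Γ.outDeg i + 2 * ∑ i, Γ.outDeg i := by
    simp only [f, sum_add_distrib, sum_const, card_univ, Fintype.card_fin, smul_eq_mul, ← mul_sum]
    rw [sum_comm (f := fun i j => Γ.A j i)]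
    simp only [← Γ.outDeg_eq]
    ring
  omega

lemma sum_degree {m : ℕ} (hm : ∀ i j, i ≠ j → Γ.f i j = m ∨ Γ.f i j = m + 1) :
    ∑ i, (Γ.gr m).degree i + m * (n * (n - 1)) = 2 * n * ∑ i, Γ.outDeg i := by
  rw [← Γ.sum_f]
  have h1 : ∀ i, (Γ.gr m).degree i = ∑ j, (if (Γ.gr m).Adj i j then 1 else 0) := by
    intro i
    rw [← SimpleGraph.card_neighborFinset_eq_degree, SimpleGraph.neighborFinset_eq_filter,
      card_filter]
  have h2 : ∀ i j, (if i = j then 0 else Γ.f i j) =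
      (if (Γ.gr m).Adj i j then 1 else 0) + (if i = j then 0 else m) := by
    intro i j
    by_cases h : i = j
    · subst h; simp
    · rcases hm i j h with h' | h'
      · have : ¬ (Γ.gr m).Adj i j := by rw [gr_adj, h']; rintro ⟨-, h⟩; omega
        rw [if_neg h, if_neg h, if_neg this, h']; ring
      · have : (Γ.gr m).Adj i j := by rw [gr_adj]; exact ⟨h, h'⟩
        rw [if_neg h, if_neg h, if_pos this, h']; ring
  simp_rw [h2, sum_add_distrib, ← h1]
  congr 1
  have h3 : ∀ i : Fin n, ∑ j : Fin n, (if i = j then 0 else m) = (n - 1) * m := by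
    intro i
    have : ∑ j : Fin n, (if i = j then 0 else m) = ∑ j ∈ univ.erase i, m := by
      rw [← sum_erase_add _ _ (mem_univ i)]
      simp only [if_true, add_zero]
      apply sum_congr rfl
      intro j hj
      rw [mem_erase] at hj
      rw [if_neg (fun h => hj.1 h.symm)]
    rw [this, sum_const, card_erase_of_mem (mem_univ i), card_univ, Fintype.card_fin, smul_eq_mul]
  simp_rw [h3]
  rw [sum_const, card_univ, Fintype.card_fin, smul_eq_mul]
  ring

lemma dvd_sum_degree {m : ℕ} (hm : ∀ i j, i ≠ j → Γ.f i j = m ∨ Γ.f i j = m + 1) :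
    n ∣ ∑ i, (Γ.gr m).degree i := by
  have h := Γ.sum_degree hm
  have h1 : n ∣ ∑ i, (Γ.gr m).degree i + m * (n * (n - 1)) := by
    rw [h]; exact ⟨2 * ∑ i, Γ.outDeg i, by ring⟩
  exact (Nat.dvd_add_left ⟨m * (n - 1), by ring⟩).1 h1

end Dig

end Pool.Agent.Lib.MP_e61cf5_co
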