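import Mathlib

set_option autoImplicit false

/-!
# Finite check for digraphs on four vertices
-/

namespace Pool.Agent.Lib.MP_e61cf5_co

/-- 0/1 value -/
def bn (b : Bool) : ℕ := cond b 1 0

/-- the digraph on four vertices given by the twelve possible arcs -/
def mk (b01 b02 b03 b10 b12 b13 b20 b21 b23 b30 b31 b32 : Bool) : Fin 4 → Fin 4 → Bool :=
  ![![false, b01, b02, b03], ![b10, false, b12, b13], ![b20, b21, false, b23],
    ![b30, b31, b32, false]]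

/-- out-degree -/
def dg (a : Fin 4 → Fin 4 → Bool) (i : Fin 4) : ℕ :=
  bn (a i 0) + bn (a i 1) + bn (a i 2) + bn (a i 3)

/-- the weight -/
def F (a : Fin 4 → Fin 4 → Bool) (i j : Fin 4) : ℕ := dg a i + dg a j + bn (a i j) + bn (a j i)

/-- the integer Laplacian -/
def LZ (a : Fin 4 → Fin 4 → Bool) : Matrix (Fin 4) (Fin 4) ℤ :=
  !![(dg a 0 : ℤ), -(bn (a 0 1) : ℤ), -(bn (a 0 2) : ℤ), -(bn (a 0 3) : ℤ);
     -(bn (a 1 0) : ℤ), (dg a 1 : ℤ), -(bn (a 1 2) : ℤ), -(bn (a 1 3) : ℤ);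
     -(bn (a 2 0) : ℤ), -(bn (a 2 1) : ℤ), (dg a 2 : ℤ), -(bn (a 2 3) : ℤ);
     -(bn (a 3 0) : ℤ), -(bn (a 3 1) : ℤ), -(bn (a 3 2) : ℤ), (dg a 3 : ℤ)]

/-- polynomial identity -/
def Poly (a : Fin 4 → Fin 4 → Bool) (r s t : ℤ) : Prop :=
  LZ a * (LZ a - r • (1 : Matrix (Fin 4) (Fin 4) ℤ)) *
    (LZ a * LZ a - s • LZ a + t • (1 : Matrix (Fin 4) (Fin 4) ℤ)) = 0

instance (a : Fin 4 → Fin 4 → Bool) (r s t : ℤ) : Decidable (Poly a r s t) := by
  unfold Poly; infer_instance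

/-- conclusion of the finite check -/
def Concl (a : Fin 4 → Fin 4 → Bool) : Prop :=
  (Poly a 1 3 3 ∨ Poly a 2 3 3 ∨ Poly a 2 5 7 ∨ Poly a 3 5 7) ∧
    ∃ i j k : Fin 4, i ≠ j ∧ i ≠ k ∧ j ≠ k ∧ F a i k < F a i j ∧ F a j k < F a i j

instance (a : Fin 4 → Fin 4 → Bool) : Decidable (Concl a) := by
  unfold Concl; infer_instance

/-- two weights differ by at most one -/
def cl (x y : ℕ) : Bool := Nat.ble x (y + 1) && Nat.ble y (x + 1)

/-- both of `x, y` are larger than both of `z, w` -/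
def sw (x y z w : ℕ) : Bool := Nat.blt z x && Nat.blt z y && Nat.blt w x && Nat.blt w y

/-- the hypothesis of the finite check -/
def good (f01 f02 f03 f12 f13 f23 : ℕ) : Bool :=
  cl f01 f02 && cl f01 f03 && cl f01 f12 && cl f01 f13 && cl f01 f23 &&
  cl f02 f03 && cl f02 f12 && cl f02 f13 && cl f02 f23 &&
  cl f03 f12 && cl f03 f13 && cl f03 f23 && cl f12 f13 && cl f12 f23 && cl f13 f23 &&
  !(Nat.beq f01 f02 && Nat.beq f01 f03 && Nat.beq f01 f12 && Nat.beq f01 f13 && Nat.beq f01 f23) &&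
  !(sw f01 f23 f02 f13) && !(sw f01 f23 f03 f12) && !(sw f02 f13 f01 f23) &&
  !(sw f02 f13 f03 f12) && !(sw f03 f12 f01 f23) && !(sw f03 f12 f02 f13)

/-- the check for one digraph -/
def chk (b01 b02 b03 b10 b12 b13 b20 b21 b23 b30 b31 b32 : Bool) : Bool :=
  let d0 := bn b01 + bn b02 + bn b03
  let d1 := bn b10 + bn b12 + bn b13
  let d2 := bn b20 + bn b21 + bn b23
  let d3 := bn b30 + bn b31 + bn b32
  !(good (d0 + d1 + bn b01 + bn b10) (d0 + d2 + bn b02 + bn b20) (d0 + d3 + bn b03 + bn b30)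
    (d1 + d2 + bn b12 + bn b21) (d1 + d3 + bn b13 + bn b31) (d2 + d3 + bn b23 + bn b32)) ||
  decide (Concl (mk b01 b02 b03 b10 b12 b13 b20 b21 b23 b30 b31 b32))

theorem brute : ∀ b01 b02 b03 b10 b12 b13 b20 b21 b23 b30 b31 b32 : Bool,
    chk b01 b02 b03 b10 b12 b13 b20 b21 b23 b30 b31 b32 = true := by
  decide +kernel

end Pool.Agent.Lib.MP_e61cf5_co
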