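import Pool.Agent.Lib.MP_e61cf5_co.Main
import Pool.Agent.Lib.MP_e61cf5_co.Four

set_option autoImplicit false

namespace Pool.Agent.Lib.MP_e61cf5_co

open Finset

namespace Dig

variable {n : ℕ} (Γ : Dig n)

/-! ### The compression -/

lemma proj_eq (hn : 1 ≤ n) {Q : Matrix (Fin n) (Fin (n - 1)) ℂ} (hQ : Q.conjTranspose * Q = 1)
    (hQ0 : ∀ k, ∑ i, Q i k = 0) (w : Fin n → ℂ) (i : Fin n) :
    ((Q * Q.conjTranspose).mulVec w) i = w i - (∑ j, w j) / n := by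
  have hn0 : (n : ℂ) ≠ 0 := by
    have : n ≠ 0 := by omega
    exact_mod_cast this
  obtain ⟨E1, hE1⟩ : ∃ E : Matrix Unit (Fin n) ℂ, ∀ u i, E u i = 1 / n :=
    ⟨Matrix.of fun _ _ => 1 / n, fun _ _ => rfl⟩
  obtain ⟨E2, hE2⟩ : ∃ E : Matrix (Fin n) Unit ℂ, ∀ i u, E i u = 1 :=
    ⟨Matrix.of fun _ _ => 1, fun _ _ => rfl⟩
  have h1 : Matrix.fromRows Q.conjTranspose E1 * Matrix.fromCols Q E2 = 1 := by
    rw [Matrix.fromRows_mul_fromCols]
    have e1 : Q.conjTranspose * E2 = 0 := by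
      ext k u
      simp only [Matrix.mul_apply, Matrix.conjTranspose_apply, hE2, mul_one, Matrix.zero_apply]
      rw [← star_sum, hQ0 k, star_zero]
    have e2 : E1 * Q = 0 := by
      ext u k
      simp only [Matrix.mul_apply, hE1, Matrix.zero_apply]
      rw [← mul_sum, hQ0 k, mul_zero]
    have e3 : E1 * E2 = 1 := by
      ext u v
      simp only [Matrix.mul_apply, hE1, hE2, mul_one, sum_const, card_univ, Fintype.card_fin,
        nsmul_eq_mul]
      rw [mul_one_div_cancel hn0]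
      simp
    rw [hQ, e1, e2, e3]
    exact Matrix.fromBlocks_one
  have h2 : Matrix.fromCols Q E2 * Matrix.fromRows Q.conjTranspose E1 = 1 := by
    rw [Matrix.mul_eq_one_comm_of_card_eq]
    · exact h1
    · simp; omega
  rw [Matrix.fromCols_mul_fromRows] at h2
  have h3 : (Q * Q.conjTranspose) = 1 - E2 * E1 := by rw [← h2]; abel
  rw [h3, Matrix.sub_mulVec, Matrix.one_mulVec]
  simp only [Pi.sub_apply]
  congr 1
  simp only [Matrix.mulVec, dotProduct, Matrix.mul_apply, hE1, hE2, one_mul, univ_unique,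
    sum_singleton]
  rw [← mul_sum]
  ring

lemma exists_eig (hn : 1 ≤ n) (L : Matrix (Fin n) (Fin n) ℂ)
    {Q : Matrix (Fin n) (Fin (n - 1)) ℂ} (hQ : Q.conjTranspose * Q = 1)
    (hQ0 : ∀ k, ∑ i, Q i k = 0) {μ : ℂ} (hμ : μ ∈ spectrum ℂ (Q.conjTranspose * L * Q)) :
    ∃ y : Fin n → ℂ, y ≠ 0 ∧ ∑ i, y i = 0 ∧ ∃ c : ℂ, ∀ i, (L.mulVec y) i = μ * y i + c := by
  rw [spectrum.mem_iff, Matrix.isUnit_iff_isUnit_det, isUnit_iff_ne_zero, not_not,
    ← Matrix.exists_mulVec_eq_zero_iff] at hμ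
  obtain ⟨v, hv, hv0⟩ := hμ
  have hMv : (Q.conjTranspose * L * Q).mulVec v = μ • v := by
    rw [Matrix.sub_mulVec, sub_eq_zero, Algebra.algebraMap_eq_smul_one] at hv0
    rw [← hv0, Matrix.smul_mulVec, Matrix.one_mulVec]
  refine ⟨Q.mulVec v, ?_, ?_, (∑ j, (L.mulVec (Q.mulVec v)) j) / n, ?_⟩
  · intro h
    apply hv
    have : (Q.conjTranspose * Q).mulVec v = 0 := by
      rw [← Matrix.mulVec_mulVec, h, Matrix.mulVec_zero]
    rw [hQ, Matrix.one_mulVec] at this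
    exact this
  · simp only [Matrix.mulVec, dotProduct]
    rw [sum_comm]
    apply sum_eq_zero
    intro k _
    rw [← sum_mul, hQ0 k, zero_mul]
  · intro i
    have h1 := proj_eq hn hQ hQ0 (L.mulVec (Q.mulVec v)) i
    have h2 : (Q * Q.conjTranspose).mulVec (L.mulVec (Q.mulVec v)) = μ • Q.mulVec v := by
      rw [← Matrix.mulVec_smul, ← hMv]
      simp only [Matrix.mulVec_mulVec, Matrix.mul_assoc]
    rw [h2] at h1
    simp only [Pi.smul_apply, smul_eq_mul] at h1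
    rw [h1]; ring

/-- Row sums of the Laplacian vanish. -/
lemma lapC_one : Γ.lapC.mulVec (fun _ => (1 : ℂ)) = 0 := by
  ext i
  simp only [Matrix.mulVec, dotProduct, lapC, Matrix.map_apply, mul_one, Pi.zero_apply]
  rw [← Complex.ofReal_sum]
  have : ∑ j, Γ.lap i j = 0 := by
    simp only [lap, Matrix.of_apply, sum_sub_distrib]
    rw [sum_ite_eq, if_pos (mem_univ i), outDeg_eq]
    push_cast
    simp [A]
  rw [this]; simp

/-! ### Real parts -/

lemma re_dot (x : Fin n → ℂ) :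
    (dotProduct (star x) (Γ.lapC.mulVec x)).re =
      Γ.q (fun i => (x i).re) + Γ.q (fun i => (x i).im) := by
  simp only [q, dotProduct, Matrix.mulVec, lapC, Matrix.map_apply, Pi.star_apply, Complex.re_sum]
  rw [← sum_add_distrib]
  apply sum_congr rfl; intro i _
  rw [mul_sum, Complex.re_sum, mul_sum, mul_sum, ← sum_add_distrib]
  apply sum_congr rfl; intro j _
  simp

lemma alpha_le_re {z : ℂ} (hz : z ∈ Γ.restrictedRange) : Γ.alpha ≤ z.re := by
  obtain ⟨x, hx, h1, rfl⟩ := hz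
  rw [re_dot]
  have hu : ∑ i, (x i).re = 0 := by rw [← Complex.re_sum, hx]; rfl
  have hv : ∑ i, (x i).im = 0 := by rw [← Complex.im_sum, hx]; rfl
  have h2 := (Γ.bounds _ hu).1
  have h3 := (Γ.bounds _ hv).1
  have h4 : nsq (fun i => (x i).re) + nsq (fun i => (x i).im) = 1 := by
    rw [← h1, nsq, nsq, ← sum_add_distrib]
    apply sum_congr rfl; intro i _
    rw [← Complex.normSq_eq_norm_sq, Complex.normSq_apply]; ring
  have h5 : Γ.alpha * nsq (fun i => (x i).re) + Γ.alpha * nsq (fun i => (x i).im) = Γ.alpha := by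
    rw [← mul_add, h4, mul_one]
  linarith

lemma real_mem_range {x : Fin n → ℝ} (hx : ∑ i, x i = 0) (h1 : nsq x = 1) :
    ((Γ.q x : ℝ) : ℂ) ∈ Γ.restrictedRange := by
  refine ⟨fun i => (x i : ℂ), by rw [← Complex.ofReal_sum, hx]; simp, ?_, ?_⟩
  · rw [← h1, nsq]
    apply sum_congr rfl; intro i _
    rw [Complex.norm_real, Real.norm_eq_abs, sq_abs]
  · simp only [q, dotProduct, Matrix.mulVec, lapC, Matrix.map_apply, Pi.star_apply]
    push_cast
    apply sum_congr rfl; intro i _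
    congr 1
    simp

/-- A point of the range of small real part yields an eigenvalue of small real part. -/
lemma exists_eig_lt {Q : Matrix (Fin n) (Fin (n - 1)) ℂ} {c : ℝ}
    (h : Γ.restrictedRange = convexHull ℝ (spectrum ℂ (Q.conjTranspose * Γ.lapC * Q)))
    {z : ℂ} (hz : z ∈ Γ.restrictedRange) (hzc : z.re < c) :
    ∃ μ ∈ spectrum ℂ (Q.conjTranspose * Γ.lapC * Q), μ.re < c := by
  by_contra hcon
  push Not at hcon
  have hsub : spectrum ℂ (Q.conjTranspose * Γ.lapC * Q) ⊆ {w : ℂ | c ≤ w.re} := fun w hw => hcon w hw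
  have hconv : Convex ℝ {w : ℂ | c ≤ w.re} := convex_halfSpace_re_ge c
  have := convexHull_min hsub hconv
  rw [← h] at this
  have h2 : c ≤ z.re := this hz
  linarith

end Dig

/-! ### Small orders -/

lemma not_dvd_three (G : SimpleGraph (Fin 3)) [DecidableRel G.Adj] {a b c d : Fin 3}
    (hab : G.Adj a b) (hcd : c ≠ d) (hncd : ¬ G.Adj c d) : ¬ (3 ∣ ∑ i, G.degree i) := by
  have h1 : ∀ i, G.degree i = ∑ j, (if G.Adj i j then 1 else 0) := by
    intro i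
    rw [← SimpleGraph.card_neighborFinset_eq_degree, SimpleGraph.neighborFinset_eq_filter,
      card_filter]
  have s1 : G.Adj 1 0 ↔ G.Adj 0 1 := G.adj_comm _ _
  have s2 : G.Adj 2 0 ↔ G.Adj 0 2 := G.adj_comm _ _
  have s3 : G.Adj 2 1 ↔ G.Adj 1 2 := G.adj_comm _ _
  simp_rw [h1, Fin.sum_univ_three]
  by_cases e1 : G.Adj 0 1 <;> by_cases e2 : G.Adj 0 2 <;> by_cases e3 : G.Adj 1 2
  all_goals simp only [s1, s2, s3, e1, e2, e3, SimpleGraph.irrefl, if_true, if_false]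
  · exfalso
    fin_cases c <;> fin_cases d <;> simp_all
  · decide
  · decide
  · decide
  · decide
  · decide
  · decide
  · exfalso
    fin_cases a <;> fin_cases b <;> simp_all

lemma two_case (G : SimpleGraph (Fin 2)) {a b c d : Fin 2}
    (hab : G.Adj a b) (hcd : c ≠ d) : G.Adj c d := by
  have s1 : G.Adj 1 0 ↔ G.Adj 0 1 := G.adj_comm _ _
  fin_cases a <;> fin_cases b <;> fin_cases c <;> fin_cases d <;> simp_all

/-! ### Order four -/

section four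

variable (Γ : Dig 4)

lemma bn_arc (i j : Fin 4) : bn (Γ.arc i j) = Γ.A i j := by
  rw [Dig.A, bn]; cases Γ.arc i j <;> rfl

lemma dg_arc (i : Fin 4) : dg Γ.arc i = Γ.outDeg i := by
  rw [Dig.outDeg_eq, Fin.sum_univ_four, dg, bn_arc, bn_arc, bn_arc, bn_arc]

lemma F_arc (i j : Fin 4) : F Γ.arc i j = Γ.f i j := by
  rw [F, Dig.f, dg_arc, dg_arc, bn_arc, bn_arc]

lemma mk_arc : mk (Γ.arc 0 1) (Γ.arc 0 2) (Γ.arc 0 3) (Γ.arc 1 0) (Γ.arc 1 2) (Γ.arc 1 3)
    (Γ.arc 2 0) (Γ.arc 2 1) (Γ.arc 2 3) (Γ.arc 3 0) (Γ.arc 3 1) (Γ.arc 3 2) = Γ.arc := by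
  funext i j
  fin_cases i <;> fin_cases j <;> simp [mk, Γ.loopless]

lemma concl_of_spread {m : ℕ} (hm : ∀ i j, i ≠ j → Γ.f i j = m ∨ Γ.f i j = m + 1)
    (hlt : Γ.spread < 1) (hpos : 0 < Γ.spread) : Concl Γ.arc := by
  have h := Γ.spr hm hlt
  have key := brute (Γ.arc 0 1) (Γ.arc 0 2) (Γ.arc 0 3) (Γ.arc 1 0) (Γ.arc 1 2) (Γ.arc 1 3)
    (Γ.arc 2 0) (Γ.arc 2 1) (Γ.arc 2 3) (Γ.arc 3 0) (Γ.arc 3 1) (Γ.arc 3 2)
  rw [chk, mk_arc] at key
  -- the weights
  have w : ∀ i : Fin 4, Γ.outDeg i = bn (Γ.arc i 0) + bn (Γ.arc i 1) + bn (Γ.arc i 2) +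
      bn (Γ.arc i 3) := fun i => by rw [← dg_arc]; rfl
  have z0 : bn (Γ.arc 0 0) = 0 := by rw [Γ.loopless]; rfl
  have z1 : bn (Γ.arc 1 1) = 0 := by rw [Γ.loopless]; rfl
  have z2 : bn (Γ.arc 2 2) = 0 := by rw [Γ.loopless]; rfl
  have z3 : bn (Γ.arc 3 3) = 0 := by rw [Γ.loopless]; rfl
  have f01 : bn (Γ.arc 0 1) + bn (Γ.arc 0 2) + bn (Γ.arc 0 3) +
      (bn (Γ.arc 1 0) + bn (Γ.arc 1 2) + bn (Γ.arc 1 3)) + bn (Γ.arc 0 1) + bn (Γ.arc 1 0)
      = Γ.f 0 1 := by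
    rw [Dig.f, w 0, w 1, z0, z1, bn_arc, bn_arc, bn_arc, bn_arc, bn_arc, bn_arc]; ring
  have f02 : bn (Γ.arc 0 1) + bn (Γ.arc 0 2) + bn (Γ.arc 0 3) +
      (bn (Γ.arc 2 0) + bn (Γ.arc 2 1) + bn (Γ.arc 2 3)) + bn (Γ.arc 0 2) + bn (Γ.arc 2 0)
      = Γ.f 0 2 := by
    rw [Dig.f, w 0, w 2, z0, z2, bn_arc, bn_arc, bn_arc, bn_arc, bn_arc, bn_arc]; ring
  have f03 : bn (Γ.arc 0 1) + bn (Γ.arc 0 2) + bn (Γ.arc 0 3) +
      (bn (Γ.arc 3 0) + bn (Γ.arc 3 1) + bn (Γ.arc 3 2)) + bn (Γ.arc 0 3) + bn (Γ.arc 3 0)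
      = Γ.f 0 3 := by
    rw [Dig.f, w 0, w 3, z0, z3, bn_arc, bn_arc, bn_arc, bn_arc, bn_arc, bn_arc]; ring
  have f12 : bn (Γ.arc 1 0) + bn (Γ.arc 1 2) + bn (Γ.arc 1 3) +
      (bn (Γ.arc 2 0) + bn (Γ.arc 2 1) + bn (Γ.arc 2 3)) + bn (Γ.arc 1 2) + bn (Γ.arc 2 1)
      = Γ.f 1 2 := by
    rw [Dig.f, w 1, w 2, z1, z2, bn_arc, bn_arc, bn_arc, bn_arc, bn_arc, bn_arc]; ring
  have f13 : bn (Γ.arc 1 0) + bn (Γ.arc 1 2) + bn (Γ.arc 1 3) +
      (bn (Γ.arc 3 0) + bn (Γ.arc 3 1) + bn (Γ.arc 3 2)) + bn (Γ.arc 1 3) + bn (Γ.arc 3 1)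
      = Γ.f 1 3 := by
    rw [Dig.f, w 1, w 3, z1, z3, bn_arc, bn_arc, bn_arc, bn_arc, bn_arc, bn_arc]; ring
  have f23 : bn (Γ.arc 2 0) + bn (Γ.arc 2 1) + bn (Γ.arc 2 3) +
      (bn (Γ.arc 3 0) + bn (Γ.arc 3 1) + bn (Γ.arc 3 2)) + bn (Γ.arc 2 3) + bn (Γ.arc 3 2)
      = Γ.f 2 3 := by
    rw [Dig.f, w 2, w 3, z2, z3, bn_arc, bn_arc, bn_arc, bn_arc, bn_arc, bn_arc]; ring
  simp only [f01, f02, f03, f12, f13, f23] at key
  have hgood : good (Γ.f 0 1) (Γ.f 0 2) (Γ.f 0 3) (Γ.f 1 2) (Γ.f 1 3) (Γ.f 2 3) = true := by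
    have c : ∀ i j k l : Fin 4, i ≠ j → k ≠ l → cl (Γ.f i j) (Γ.f k l) = true := by
      intro i j k l hij hkl
      rw [cl, Bool.and_eq_true, Nat.ble_eq, Nat.ble_eq]
      exact ⟨Γ.f_close hlt hij hkl, Γ.f_close hlt hkl hij⟩
    have s : ∀ a b c d : Fin 4, a ≠ b → c ≠ d → b ≠ c → d ≠ a → a ≠ c → b ≠ d →
        sw (Γ.f a b) (Γ.f c d) (Γ.f b c) (Γ.f d a) = false := by
      intro a b c d hab hcd hbc hda hac hbd
      by_contra hcon
      rw [Bool.not_eq_false, sw, Bool.and_eq_true, Bool.and_eq_true, Bool.and_eq_true] at hcon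
      simp only [Nat.blt, Nat.ble_eq] at hcon
      obtain ⟨⟨⟨h1, h2⟩, h3⟩, h4⟩ := hcon
      have hab' := hm a b hab
      have hcd' := hm c d hcd
      have hbc' := hm b c hbc
      have hda' := hm d a hda
      exact h.no_switch (a := a) (b := b) (c := c) (d := d) ⟨hab, by omega⟩ ⟨hcd, by omega⟩
        (fun hh => by have := hh.2; omega) (fun hh => by have := hh.2; omega) hac hbd hbc hda
    have e : (Nat.beq (Γ.f 0 1) (Γ.f 0 2) && Nat.beq (Γ.f 0 1) (Γ.f 0 3) &&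
        Nat.beq (Γ.f 0 1) (Γ.f 1 2) && Nat.beq (Γ.f 0 1) (Γ.f 1 3) &&
        Nat.beq (Γ.f 0 1) (Γ.f 2 3)) = false := by
      by_contra hcon
      rw [Bool.not_eq_false, Bool.and_eq_true, Bool.and_eq_true, Bool.and_eq_true,
        Bool.and_eq_true] at hcon
      simp only [Nat.beq_eq] at hcon
      obtain ⟨⟨⟨⟨h1, h2⟩, h3⟩, h4⟩, h5⟩ := hcon
      have h10 := Γ.f_comm 1 0
      have h20 := Γ.f_comm 2 0
      have h30 := Γ.f_comm 3 0
      have h21 := Γ.f_comm 2 1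
      have h31 := Γ.f_comm 3 1
      have h32 := Γ.f_comm 3 2
      have : Γ.spread = 0 := by
        apply Γ.spread_eq_zero (m := Γ.f 0 1) (by norm_num)
        intro i j hij
        fin_cases i <;> fin_cases j <;> simp_all
      linarith
    have s1 := s 0 1 3 2 (by decide) (by decide) (by decide) (by decide) (by decide) (by decide)
    have s2 := s 0 1 2 3 (by decide) (by decide) (by decide) (by decide) (by decide) (by decide)
    have s3 := s 0 2 3 1 (by decide) (by decide) (by decide) (by decide) (by decide) (by decide)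
    have s4 := s 0 2 1 3 (by decide) (by decide) (by decide) (by decide) (by decide) (by decide)
    have s5 := s 0 3 2 1 (by decide) (by decide) (by decide) (by decide) (by decide) (by decide)
    have s6 := s 0 3 1 2 (by decide) (by decide) (by decide) (by decide) (by decide) (by decide)
    have swc : ∀ x y z w : ℕ, sw x y z w = sw x y w z := by
      intro x y z w
      simp only [sw]
      cases Nat.blt z x <;> cases Nat.blt z y <;> cases Nat.blt w x <;> cases Nat.blt w y <;> rfl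
    rw [Γ.f_comm 3 2, Γ.f_comm 2 0, swc] at s1
    rw [Γ.f_comm 3 0, swc] at s2
    rw [Γ.f_comm 3 1, Γ.f_comm 1 0, swc] at s3
    rw [Γ.f_comm 2 1, Γ.f_comm 3 0, swc] at s4
    rw [Γ.f_comm 2 1, Γ.f_comm 3 2, Γ.f_comm 1 0, swc] at s5
    rw [Γ.f_comm 3 1, Γ.f_comm 2 0, swc] at s6
    simp only [good, e, s1, s2, s3, s4, s5, s6, c 0 1 0 2 (by decide) (by decide),
      c 0 1 0 3 (by decide) (by decide), c 0 1 1 2 (by decide) (by decide),
      c 0 1 1 3 (by decide) (by decide), c 0 1 2 3 (by decide) (by decide),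
      c 0 2 0 3 (by decide) (by decide), c 0 2 1 2 (by decide) (by decide),
      c 0 2 1 3 (by decide) (by decide), c 0 2 2 3 (by decide) (by decide),
      c 0 3 1 2 (by decide) (by decide), c 0 3 1 3 (by decide) (by decide),
      c 0 3 2 3 (by decide) (by decide), c 1 2 1 3 (by decide) (by decide),
      c 1 2 2 3 (by decide) (by decide), c 1 3 2 3 (by decide) (by decide)]
    rfl
  rw [hgood] at key
  simpa using key

end four

end Pool.Agent.Lib.MP_e61cf5_co
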