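import Pool.Agent.Lib.MP_e61cf5_co.Final

set_option autoImplicit false

namespace Pool.Agent.Lib.MP_e61cf5_co

open Finset

section four

variable (Γ : Dig 4)

lemma lapC_eq : Γ.lapC = (Int.castRingHom ℂ).mapMatrix (LZ Γ.arc) := by
  ext i j
  simp only [Dig.lapC, Dig.lap, RingHom.mapMatrix_apply, Matrix.map_apply, Matrix.of_apply]
  have hA : ∀ i j, (if Γ.arc i j = true then (1 : ℝ) else 0) = ((bn (Γ.arc i j) : ℕ) : ℝ) := by
    intro i j; cases Γ.arc i j <;> simp [bn]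
  rw [hA]
  have hz : ∀ i, bn (Γ.arc i i) = 0 := fun i => by rw [Γ.loopless]; rfl
  fin_cases i <;> fin_cases j <;> simp [LZ, dg_arc, hz]

lemma two_re {μ : ℂ} {r s t : ℤ} (hst : s ^ 2 < 4 * t)
    (h : μ * (μ - r) * (μ * μ - s * μ + t) = 0) : ∃ k : ℤ, 2 * μ.re = k := by
  rcases mul_eq_zero.1 h with h | h
  · rcases mul_eq_zero.1 h with h | h
    · exact ⟨0, by rw [h]; simp⟩
    · refine ⟨2 * r, ?_⟩
      rw [sub_eq_zero] at h
      rw [h]; simp
  · refine ⟨s, ?_⟩
    have hre := congrArg Complex.re h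
    have him := congrArg Complex.im h
    simp only [Complex.add_re, Complex.sub_re, Complex.mul_re, Complex.intCast_re,
      Complex.intCast_im, Complex.zero_re, Complex.add_im, Complex.sub_im, Complex.mul_im,
      Complex.zero_im] at hre him
    have h1 : μ.im * (2 * μ.re - s) = 0 := by linarith
    rcases mul_eq_zero.1 h1 with h2 | h2
    · exfalso
      rw [h2] at hre
      have hst' : (s : ℝ) ^ 2 < 4 * t := by exact_mod_cast hst
      nlinarith [sq_nonneg (2 * μ.re - s)]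
    · linarith

lemma two_re_of_poly {r s t : ℤ} (hst : s ^ 2 < 4 * t) (hP : Poly Γ.arc r s t)
    {Q : Matrix (Fin 4) (Fin (4 - 1)) ℂ} (hQ : Q.conjTranspose * Q = 1)
    (hQ0 : ∀ k, ∑ i, Q i k = 0) {μ : ℂ}
    (hμ : μ ∈ spectrum ℂ (Q.conjTranspose * Γ.lapC * Q)) : ∃ k : ℤ, 2 * μ.re = k := by
  obtain ⟨y, hy, hy0, c, hc⟩ := Dig.exists_eig (by norm_num) Γ.lapC hQ hQ0 hμ
  set z := Γ.lapC.mulVec y with hz
  have hzy : z = μ • y + c • (fun _ => (1 : ℂ)) := by
    funext i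
    rw [hc i]; simp
  have hLz : Γ.lapC.mulVec z = μ • z := by
    conv_lhs => rw [hzy]
    rw [Matrix.mulVec_add, Matrix.mulVec_smul, Matrix.mulVec_smul, Γ.lapC_one, smul_zero, add_zero]
  by_cases hz0 : z = 0
  · -- then `μ = 0`
    have hsum : ∑ i, z i = 4 * c := by
      rw [hzy]
      simp only [Pi.add_apply, Pi.smul_apply, smul_eq_mul, mul_one, sum_add_distrib, ← mul_sum, hy0]
      simp
    have hc0 : c = 0 := by
      rw [hz0] at hsum
      simp at hsum
      exact hsum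
    have hμy : μ • y = 0 := by
      rw [hz0, hc0, zero_smul, add_zero] at hzy
      exact hzy.symm
    rcases smul_eq_zero.1 hμy with h | h
    · exact ⟨0, by rw [h]; simp⟩
    · exact absurd h hy
  · -- `z` is an eigenvector
    have hPC : Γ.lapC * (Γ.lapC - (r : ℂ) • (1 : Matrix (Fin 4) (Fin 4) ℂ)) *
        (Γ.lapC * Γ.lapC - (s : ℂ) • Γ.lapC + (t : ℂ) • (1 : Matrix (Fin 4) (Fin 4) ℂ)) = 0 := by
      have h1 := congrArg (Int.castRingHom ℂ).mapMatrix hP
      have hs : ∀ (k : ℤ) (M : Matrix (Fin 4) (Fin 4) ℤ),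
          (Int.castRingHom ℂ).mapMatrix (k • M) = (k : ℂ) • (Int.castRingHom ℂ).mapMatrix M := by
        intro k M
        ext i j
        rw [RingHom.mapMatrix_apply, Matrix.map_apply, Matrix.smul_apply, Matrix.smul_apply,
          RingHom.mapMatrix_apply, Matrix.map_apply, zsmul_eq_mul, map_mul, smul_eq_mul]
        simp
      rw [map_mul, map_mul, map_sub, map_add, map_sub, map_mul, hs, hs, hs, map_one, map_zero,
        ← lapC_eq] at h1
      exact h1
    have h2 : (Γ.lapC * (Γ.lapC - (r : ℂ) • (1 : Matrix (Fin 4) (Fin 4) ℂ)) *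
        (Γ.lapC * Γ.lapC - (s : ℂ) • Γ.lapC + (t : ℂ) • (1 : Matrix (Fin 4) (Fin 4) ℂ))).mulVec z =
        (μ * (μ - r) * (μ * μ - s * μ + t)) • z := by
      have e1 : (Γ.lapC * Γ.lapC - (s : ℂ) • Γ.lapC +
          (t : ℂ) • (1 : Matrix (Fin 4) (Fin 4) ℂ)).mulVec z = (μ * μ - s * μ + t) • z := by
        rw [Matrix.add_mulVec, Matrix.sub_mulVec, ← Matrix.mulVec_mulVec, Matrix.smul_mulVec,
          Matrix.smul_mulVec, Matrix.one_mulVec, hLz, Matrix.mulVec_smul, hLz]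
        module
      have e2 : (Γ.lapC - (r : ℂ) • (1 : Matrix (Fin 4) (Fin 4) ℂ)).mulVec z = (μ - r) • z := by
        rw [Matrix.sub_mulVec, Matrix.smul_mulVec, Matrix.one_mulVec, hLz]
        module
      rw [← Matrix.mulVec_mulVec, e1, Matrix.mulVec_smul, ← Matrix.mulVec_mulVec, e2,
        Matrix.mulVec_smul, hLz]
      module
    rw [hPC, Matrix.zero_mulVec] at h2
    rcases smul_eq_zero.1 h2.symm with h | h
    · exact two_re hst h
    · exact absurd h hz0

/-- The digraphs of order four are not polygonal when `0 < sp < 1`. -/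
lemma four_case {m : ℕ} (hm : ∀ i j, i ≠ j → Γ.f i j = m ∨ Γ.f i j = m + 1)
    (hlt : Γ.spread < 1) (hpos : 0 < Γ.spread) : ¬ Γ.IsPolygonal := by
  rintro ⟨Q, hQ, hQ0, hrange⟩
  obtain ⟨hpoly, i, j, k, hij, hik, hjk, hlt1, hlt2⟩ := concl_of_spread Γ hm hlt hpos
  rw [F_arc, F_arc] at hlt1 hlt2
  -- the weights of the triple
  have fij : Γ.f i j = m + 1 := by
    rcases hm i j hij with h | h <;> rcases hm i k hik with h' | h' <;> omega
  have fik : Γ.f i k = m := by
    rcases hm i k hik with h' | h' <;> omega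
  have fjk : Γ.f j k = m := by
    rcases hm j k hjk with h' | h' <;> omega
  -- `α > (m - 1)/2`
  have hα : ((m : ℝ) - 1) / 2 < Γ.alpha := by
    have h1 := (Γ.f_bounds hij).2
    rw [fij] at h1
    push_cast at h1
    rw [Dig.spread] at hlt
    linarith
  -- eigenvalues have half-integral real part
  have hint : ∀ μ ∈ spectrum ℂ (Q.conjTranspose * Γ.lapC * Q), ∃ k : ℤ, 2 * μ.re = k := by
    intro μ hμ
    rcases hpoly with h | h | h | h
    · exact two_re_of_poly Γ (by norm_num) h hQ hQ0 hμ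
    · exact two_re_of_poly Γ (by norm_num) h hQ hQ0 hμ
    · exact two_re_of_poly Γ (by norm_num) h hQ hQ0 hμ
    · exact two_re_of_poly Γ (by norm_num) h hQ hQ0 hμ
  -- the test vector `(1, 1, -2)/√6`
  set φ : Fin 3 → Fin 4 := ![i, j, k] with hφdef
  have hφ : Function.Injective φ := by
    intro a b hab
    fin_cases a <;> fin_cases b <;> simp_all
  set c : Fin 3 → ℝ := ![1, 1, -2] with hcdef
  set x : Fin 4 → ℝ := ext φ c with hxdef
  have hx0 : ∑ l, x l = 0 := by
    rw [hxdef, sum_ext, Fin.sum_univ_three]; simp [hcdef]; norm_num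
  have hx6 : nsq x = 6 := by
    rw [hxdef, nsq_ext hφ, Fin.sum_univ_three]; simp [hcdef]; norm_num
  have hqx : Γ.q x = 3 * m - 1 := by
    have aij : (Γ.gr m).Adj i j := ⟨hij, fij⟩
    have aji : (Γ.gr m).Adj j i := aij.symm
    have aik : ¬ (Γ.gr m).Adj i k := fun h => by have := h.2; omega
    have aki : ¬ (Γ.gr m).Adj k i := fun h => aik h.symm
    have ajk : ¬ (Γ.gr m).Adj j k := fun h => by have := h.2; omega
    have akj : ¬ (Γ.gr m).Adj k j := fun h => ajk h.symm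
    rw [Γ.q_eq_gr hm x hx0, hx6, hxdef, qG_ext]
    simp only [Fin.sum_univ_three, hφdef, hcdef]
    simp [aij, aji, aik, aki, ajk, akj]
    ring
  set s := Real.sqrt 6 with hs
  have hs2 : s ^ 2 = 6 := Real.sq_sqrt (by norm_num)
  have hy0 : ∑ l, s⁻¹ * x l = 0 := by rw [← mul_sum, hx0, mul_zero]
  have hy1 : nsq (fun l => s⁻¹ * x l) = 1 := by
    have : nsq (fun l => s⁻¹ * x l) = (s⁻¹) ^ 2 * nsq x := by
      rw [nsq, nsq, mul_sum]; apply sum_congr rfl; intro i _; ring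
    rw [this, hx6, inv_pow, hs2]; norm_num
  have hz := Γ.real_mem_range hy0 hy1
  have hval : Γ.q (fun l => s⁻¹ * x l) = (m : ℝ) / 2 - 1 / 6 := by
    rw [Γ.q_smul, inv_pow, hs2, hqx]; ring
  rw [hval] at hz
  obtain ⟨μ, hμ, hμre⟩ := Γ.exists_eig_lt (c := (m : ℝ) / 2) hrange hz (by
    rw [Complex.ofReal_re]; linarith)
  have hμmem : μ ∈ Γ.restrictedRange := by
    rw [hrange]; exact subset_convexHull ℝ _ hμ
  have hμα := Γ.alpha_le_re hμmem
  obtain ⟨κ, hκ⟩ := hint μ hμ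
  have h1 : ((m : ℤ) : ℝ) - 1 < (κ : ℝ) := by
    rw [← hκ]; push_cast; linarith
  have h2 : (κ : ℝ) < ((m : ℤ) : ℝ) := by
    rw [← hκ]; push_cast; linarith
  have h1' : (m : ℤ) - 1 < κ := by exact_mod_cast h1
  have h2' : κ < (m : ℤ) := by exact_mod_cast h2
  omega

end four

/-- **Laplacian spread gap.** -/
theorem spread_gap (n : ℕ) (hn : 2 ≤ n) (Γ : Dig n) (hpol : Γ.IsPolygonal) :
    ¬ (0 < Γ.spread ∧ Γ.spread < 1) := by
  rintro ⟨hpos, hlt⟩
  -- the least weight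
  have h01 : (⟨0, by omega⟩ : Fin n) ≠ ⟨1, by omega⟩ := by
    intro h; exact absurd (congrArg Fin.val h) (by norm_num)
  have hex : ∃ m, ∃ i j : Fin n, i ≠ j ∧ Γ.f i j = m := ⟨_, _, _, h01, rfl⟩
  obtain ⟨m, c, d, hcd, hfcd, hmin⟩ : ∃ m, ∃ c d : Fin n, c ≠ d ∧ Γ.f c d = m ∧
      ∀ i j, i ≠ j → m ≤ Γ.f i j := by
    classical
    obtain ⟨c, d, hcd, hfcd⟩ := Nat.find_spec hex
    exact ⟨_, c, d, hcd, hfcd, fun i j hij => Nat.find_min' hex ⟨i, j, hij, rfl⟩⟩
  have hm : ∀ i j, i ≠ j → Γ.f i j = m ∨ Γ.f i j = m + 1 := by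
    intro i j hij
    have h1 := hmin i j hij
    have h2 := Γ.f_close hlt hij hcd
    omega
  have hncd : ¬ (Γ.gr m).Adj c d := fun h => by have := h.2; omega
  obtain ⟨a, b, hab⟩ : ∃ a b, (Γ.gr m).Adj a b := by
    by_contra hcon
    push Not at hcon
    have : Γ.spread = 0 := by
      apply Γ.spread_eq_zero hn (m := m)
      intro i j hij
      rcases hm i j hij with h | h
      · exact h
      · exact absurd ⟨hij, h⟩ (hcon i j)
    linarith
  have hdvd := Γ.dvd_sum_degree hm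
  rcases Nat.lt_or_ge n 5 with hn5 | hn5
  · obtain rfl | rfl | rfl : n = 2 ∨ n = 3 ∨ n = 4 := by omega
    · exact hncd (two_case _ hab hcd)
    · exact not_dvd_three _ hab hcd hncd hdvd
    · exact four_case Γ hm hlt hpos hpol
  · have hcard : Fintype.card (Fin n) = n := Fintype.card_fin n
    have h := (Γ.spr hm hlt).not_dvd (by rw [hcard]; exact hn5) hab hcd hncd
    rw [hcard] at h
    exact h hdvd

end Pool.Agent.Lib.MP_e61cf5_co
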