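import Mathlib

set_option autoImplicit false

/-!
# Graphs whose restricted quadratic form has spread less than two

For a graph `G` on `V`, we look at the quadratic form of the adjacency matrix on the vectors of
coordinate sum zero.  We show that if this form has spread less than `2`, `G` has an edge and a
non-edge and the average degree of `G` is an integer, then `G` has at most four vertices.
-/

namespace Pool.Agent.Lib.MP_e61cf5_co

open Finset

section forms

variable {V : Type*} [Fintype V] [DecidableEq V]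

/-- the quadratic form of the adjacency matrix -/
noncomputable def qG (G : SimpleGraph V) (x : V → ℝ) : ℝ := by
  classical
  exact ∑ i, ∑ j, if G.Adj i j then x i * x j else 0

/-- squared norm -/
def nsq (x : V → ℝ) : ℝ := ∑ i, x i ^ 2

/-- the spread of the form restricted to sum-zero vectors is less than two -/
def Spr (G : SimpleGraph V) : Prop :=
  ∀ x y : V → ℝ, ∑ i, x i = 0 → ∑ i, y i = 0 → 0 < nsq x → 0 < nsq y →
    qG G x * nsq y - qG G y * nsq x < 2 * (nsq x * nsq y)

/-- vector supported on the image of `φ` -/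
def ext {m : ℕ} (φ : Fin m → V) (c : Fin m → ℝ) : V → ℝ :=
  fun i => ∑ k, if φ k = i then c k else 0

lemma sum_ext {m : ℕ} (φ : Fin m → V) (c : Fin m → ℝ) : ∑ i, ext φ c i = ∑ k, c k := by
  simp only [ext]
  rw [Finset.sum_comm]
  simp

lemma nsq_ext {m : ℕ} {φ : Fin m → V} (hφ : Function.Injective φ) (c : Fin m → ℝ) :
    nsq (ext φ c) = ∑ k, c k ^ 2 := by
  have h1 : ∀ i, (ext φ c i) ^ 2 = ∑ k, if φ k = i then c k ^ 2 else 0 := by
    intro i
    by_cases h : ∃ k, φ k = i
    · obtain ⟨k, rfl⟩ := h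
      have e1 : ext φ c (φ k) = c k := by
        simp only [ext]
        rw [Finset.sum_eq_single k]
        · simp
        · intro b _ hb
          rw [if_neg (fun h => hb (hφ h))]
        · intro h; exact absurd (mem_univ _) h
      rw [e1, Finset.sum_eq_single k]
      · simp
      · intro b _ hb
        rw [if_neg (fun h => hb (hφ h))]
      · intro h; exact absurd (mem_univ _) h
    · push Not at h
      have e1 : ext φ c i = 0 := by
        simp only [ext]
        apply Finset.sum_eq_zero
        intro k _; rw [if_neg (h k)]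
      rw [e1]
      symm
      rw [Finset.sum_eq_zero]
      · simp
      · intro k _; rw [if_neg (h k)]
  rw [nsq]
  simp_rw [h1]
  rw [Finset.sum_comm]
  simp

lemma qG_ext {m : ℕ} (G : SimpleGraph V) [DecidableRel G.Adj] (φ : Fin m → V) (c : Fin m → ℝ) :
    qG G (ext φ c) = ∑ k, ∑ l, if G.Adj (φ k) (φ l) then c k * c l else 0 := by
  classical
  have h1 : ∀ i j, (if G.Adj i j then ext φ c i * ext φ c j else 0) =
      ∑ k, ∑ l, if φ k = i then (if φ l = j then (if G.Adj i j then c k * c l else 0) else 0)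
        else 0 := by
    intro i j
    split_ifs with h
    · simp only [ext]
      rw [Finset.sum_mul_sum]
      apply Finset.sum_congr rfl; intro k _
      apply Finset.sum_congr rfl; intro l _
      split_ifs <;> simp
    · symm
      apply Finset.sum_eq_zero; intro k _
      apply Finset.sum_eq_zero; intro l _
      split_ifs <;> rfl
  rw [qG]
  have h2 : ∀ i j, (@ite ℝ (G.Adj i j) (Classical.propDecidable _) (ext φ c i * ext φ c j) 0) =
      (if G.Adj i j then ext φ c i * ext φ c j else 0) := by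
    intro i j; congr
  simp_rw [h2, h1]
  -- swap sums
  have h3 : ∀ i, (∑ j, ∑ k, ∑ l, if φ k = i then (if φ l = j then
      (if G.Adj i j then c k * c l else 0) else 0) else 0) =
      ∑ k, ∑ l, if φ k = i then (if G.Adj i (φ l) then c k * c l else 0) else 0 := by
    intro i
    rw [Finset.sum_comm]
    apply Finset.sum_congr rfl; intro k _
    rw [Finset.sum_comm]
    apply Finset.sum_congr rfl; intro l _
    split_ifs with hk h'
    · rw [Finset.sum_eq_single (φ l)]
      · simp [h']
      · intro b _ hb; rw [if_neg (fun h => hb h.symm)]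
      · intro h; exact absurd (mem_univ _) h
    · apply Finset.sum_eq_zero
      intro j _
      split_ifs with h1 h2
      · subst h1; exact absurd h2 h'
      · rfl
      · rfl
    · simp
  simp_rw [h3]
  rw [Finset.sum_comm]
  apply Finset.sum_congr rfl; intro k _
  rw [Finset.sum_comm]
  apply Finset.sum_congr rfl; intro l _
  rw [Finset.sum_eq_single (φ k)]
  · simp
  · intro b _ hb; rw [if_neg (fun h => hb h.symm)]
  · intro h; exact absurd (mem_univ _) h

/-- Contradiction from two test vectors. -/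
lemma Spr.elim {G : SimpleGraph V} [DecidableRel G.Adj] (h : Spr G) {m : ℕ} {φ : Fin m → V}
    (hφ : Function.Injective φ) (c d : Fin m → ℝ) (hc : ∑ k, c k = 0) (hd : ∑ k, d k = 0)
    {qc nc qd nd : ℝ}
    (hnc : ∑ k, c k ^ 2 = nc) (hnd : ∑ k, d k ^ 2 = nd)
    (hqc : (∑ k, ∑ l, if G.Adj (φ k) (φ l) then c k * c l else 0) = qc)
    (hqd : (∑ k, ∑ l, if G.Adj (φ k) (φ l) then d k * d l else 0) = qd)
    (h1 : 0 < nc) (h2 : 0 < nd) (h3 : 2 * (nc * nd) ≤ qc * nd - qd * nc) : False := by
  have := h (ext φ c) (ext φ d) (by rw [sum_ext, hc]) (by rw [sum_ext, hd])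
    (by rw [nsq_ext hφ, hnc]; exact h1) (by rw [nsq_ext hφ, hnd]; exact h2)
  rw [nsq_ext hφ, nsq_ext hφ, qG_ext, qG_ext, hnc, hnd, hqc, hqd] at this
  linarith

end forms

section configs

variable {V : Type*} [Fintype V] [DecidableEq V] {G : SimpleGraph V}

omit [Fintype V] [DecidableEq V] in
lemma inj4 {a b c d : V} (hab : a ≠ b) (hac : a ≠ c) (had : a ≠ d) (hbc : b ≠ c) (hbd : b ≠ d)
    (hcd : c ≠ d) : Function.Injective ![a, b, c, d] := by
  intro i j h
  fin_cases i <;> fin_cases j <;> simp_all [eq_comm]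

omit [Fintype V] [DecidableEq V] in
lemma inj5 {a b c d e : V} (hab : a ≠ b) (hac : a ≠ c) (had : a ≠ d) (hae : a ≠ e) (hbc : b ≠ c)
    (hbd : b ≠ d) (hbe : b ≠ e) (hcd : c ≠ d) (hce : c ≠ e) (hde : d ≠ e) :
    Function.Injective ![a, b, c, d, e] := by
  intro i j h
  fin_cases i <;> fin_cases j <;> simp_all [eq_comm]

omit [Fintype V] [DecidableEq V] in
lemma inj6 {a b c d e f : V} (hab : a ≠ b) (hac : a ≠ c) (had : a ≠ d) (hae : a ≠ e) (haf : a ≠ f)
    (hbc : b ≠ c) (hbd : b ≠ d) (hbe : b ≠ e) (hbf : b ≠ f) (hcd : c ≠ d) (hce : c ≠ e)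
    (hcf : c ≠ f) (hde : d ≠ e) (hdf : d ≠ f) (hef : e ≠ f) :
    Function.Injective ![a, b, c, d, e, f] := by
  intro i j h
  fin_cases i <;> fin_cases j <;> simp_all [eq_comm]

/-- No alternating four-cycle. -/
lemma Spr.no_switch (h : Spr G) {a b c d : V} (hab : G.Adj a b) (hcd : G.Adj c d)
    (hbc : ¬ G.Adj b c) (hda : ¬ G.Adj d a) (hac' : a ≠ c) (hbd' : b ≠ d) (hbc' : b ≠ c)
    (hda' : d ≠ a) : False := by
  classical
  have hinj := inj4 hab.ne hac' hda'.symm hbc' hbd' hcd.ne
  have hba := hab.symm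
  have hdc := hcd.symm
  have hcb : ¬ G.Adj c b := fun h => hbc h.symm
  have had : ¬ G.Adj a d := fun h => hda h.symm
  by_cases hac : G.Adj a c <;> by_cases hbd : G.Adj b d
  · have hca := hac.symm
    have hdb := hbd.symm
    refine h.elim hinj ![1, 0, 0, -1] ![1, -1, -1, 1] (qc := 0) (nc := 2) (qd := -8) (nd := 4)
      ?_ ?_ ?_ ?_ ?_ ?_ (by norm_num) (by norm_num) (by norm_num)
    all_goals
      simp [Fin.sum_univ_four, hab, hba, hcd, hdc, hbc, hcb, hda, had, hac, hca, hbd, hdb] <;>
      norm_num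
  · have hca := hac.symm
    have hdb : ¬ G.Adj d b := fun h => hbd h.symm
    refine h.elim hinj ![1, 2, -1, -2] ![-2, 1, 2, -1] (qc := 6) (nc := 10) (qd := -16) (nd := 10)
      ?_ ?_ ?_ ?_ ?_ ?_ (by norm_num) (by norm_num) (by norm_num)
    all_goals
      simp [Fin.sum_univ_four, hab, hba, hcd, hdc, hbc, hcb, hda, had, hac, hca, hbd, hdb] <;>
      norm_num
  · have hca : ¬ G.Adj c a := fun h => hac h.symm
    have hdb := hbd.symm
    refine h.elim hinj ![2, 1, -2, -1] ![1, -2, -1, 2] (qc := 6) (nc := 10) (qd := -16) (nd := 10)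
      ?_ ?_ ?_ ?_ ?_ ?_ (by norm_num) (by norm_num) (by norm_num)
    all_goals
      simp [Fin.sum_univ_four, hab, hba, hcd, hdc, hbc, hcb, hda, had, hac, hca, hbd, hdb] <;>
      norm_num
  · have hca : ¬ G.Adj c a := fun h => hac h.symm
    have hdb : ¬ G.Adj d b := fun h => hbd h.symm
    refine h.elim hinj ![1, 1, -1, -1] ![1, -1, 0, 0] (qc := 4) (nc := 4) (qd := -2) (nd := 2)
      ?_ ?_ ?_ ?_ ?_ ?_ (by norm_num) (by norm_num) (by norm_num)
    all_goals
      simp [Fin.sum_univ_four, hab, hba, hcd, hdc, hbc, hcb, hda, had, hac, hca, hbd, hdb] <;>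
      norm_num

/-- Three leaves and two isolated vertices. -/
lemma Spr.no_three_two (h : Spr G) {v a b c y z : V} (hva : G.Adj v a) (hvb : G.Adj v b)
    (hvc : G.Adj v c) (hab' : a ≠ b) (hac' : a ≠ c) (hbc' : b ≠ c) (hyz : y ≠ z)
    (hy : ∀ w, ¬ G.Adj y w) (hz : ∀ w, ¬ G.Adj z w) : False := by
  classical
  have hy' : ∀ w, ¬ G.Adj w y := fun w h => hy w h.symm
  have hz' : ∀ w, ¬ G.Adj w z := fun w h => hz w h.symm
  have hinj : Function.Injective ![v, a, b, c, y, z] := by
    apply inj6 <;> first | assumption | (rintro rfl; simp_all)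
  have hav := hva.symm
  have hbv := hvb.symm
  have hcv := hvc.symm
  have sab : G.Adj b a ↔ G.Adj a b := G.adj_comm b a
  have sac : G.Adj c a ↔ G.Adj a c := G.adj_comm c a
  have sbc : G.Adj c b ↔ G.Adj b c := G.adj_comm c b
  refine h.elim hinj ![1, 1, 1, 1, -2, -2] ![3, -1, -1, -1, 0, 0]
      ?_ ?_ rfl rfl rfl rfl ?_ ?_ ?_
  · simp [Fin.sum_univ_six]; norm_num
  · simp [Fin.sum_univ_six]; norm_num
  · simp [Fin.sum_univ_six]; norm_num
  · simp [Fin.sum_univ_six]; norm_num
  · by_cases hab : G.Adj a b <;> by_cases hac : G.Adj a c <;> by_cases hbc : G.Adj b c <;>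
      simp [Fin.sum_univ_six, hva, hav, hvb, hbv, hvc, hcv, sab, sac, sbc, hab, hac, hbc, hy, hy',
        hz, hz'] <;> norm_num

/-- Two leaves and three isolated vertices. -/
lemma Spr.no_two_three (h : Spr G) {v a b x y z : V} (hva : G.Adj v a) (hvb : G.Adj v b)
    (hab' : a ≠ b) (hxy : x ≠ y) (hxz : x ≠ z) (hyz : y ≠ z)
    (hx : ∀ w, ¬ G.Adj x w) (hy : ∀ w, ¬ G.Adj y w) (hz : ∀ w, ¬ G.Adj z w) : False := by
  classical
  have hx' : ∀ w, ¬ G.Adj w x := fun w h => hx w h.symm
  have hy' : ∀ w, ¬ G.Adj w y := fun w h => hy w h.symm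
  have hz' : ∀ w, ¬ G.Adj w z := fun w h => hz w h.symm
  have hinj : Function.Injective ![v, a, b, x, y, z] := by
    apply inj6 <;> first | assumption | (rintro rfl; simp_all)
  have hav := hva.symm
  have hbv := hvb.symm
  have sab : G.Adj b a ↔ G.Adj a b := G.adj_comm b a
  refine h.elim hinj ![1, 1, 1, -1, -1, -1] ![2, -1, -1, 0, 0, 0]
      ?_ ?_ rfl rfl rfl rfl ?_ ?_ ?_
  · simp [Fin.sum_univ_six]
  · simp [Fin.sum_univ_six]; norm_num
  · simp [Fin.sum_univ_six]; norm_num
  · simp [Fin.sum_univ_six]; norm_num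
  · by_cases hab : G.Adj a b <;>
      simp [Fin.sum_univ_six, hva, hav, hvb, hbv, sab, hab, hx, hx', hy, hy', hz, hz'] <;>
      norm_num

/-- Diamond plus an isolated vertex. -/
lemma Spr.no_diamond (h : Spr G) {v x u w z : V} (hvx : G.Adj v x) (hvu : G.Adj v u)
    (hvw : G.Adj v w) (hxu : G.Adj x u) (hxw : G.Adj x w) (huw : ¬ G.Adj u w) (huw' : u ≠ w)
    (hz : ∀ w, ¬ G.Adj z w) : False := by
  classical
  have hz' : ∀ w, ¬ G.Adj w z := fun w h => hz w h.symm
  have hinj : Function.Injective ![v, x, u, w, z] := by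
    apply inj5 <;> first | assumption | (rintro rfl; simp_all)
  have hwu : ¬ G.Adj w u := fun h => huw h.symm
  have hxv := hvx.symm
  have huv := hvu.symm
  have hwv := hvw.symm
  have hux := hxu.symm
  have hwx := hxw.symm
  refine h.elim hinj ![2, 2, 1, 1, -6] ![1, 1, -1, -1, 0]
      ?_ ?_ rfl rfl rfl rfl ?_ ?_ ?_
  · simp [Fin.sum_univ_five]; norm_num
  · simp [Fin.sum_univ_five]
  · simp [Fin.sum_univ_five]; norm_num
  · simp [Fin.sum_univ_five]; norm_num
  · simp [Fin.sum_univ_five, hvx, hxv, hvu, huv, hvw, hwv, hxu, hux, hxw, hwx, huw, hwu, hz, hz']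
    norm_num

/-- `K₄` with a pendant vertex, plus an isolated vertex. -/
lemma Spr.no_kite (h : Spr G) {v a b c w z : V} (hva : G.Adj v a) (hvb : G.Adj v b)
    (hvc : G.Adj v c) (hvw : G.Adj v w) (hab : G.Adj a b) (hac : G.Adj a c) (hbc : G.Adj b c)
    (haw : ¬ G.Adj a w) (hbw : ¬ G.Adj b w) (hcw : ¬ G.Adj c w) (haw' : a ≠ w) (hbw' : b ≠ w)
    (hcw' : c ≠ w) (hz : ∀ w, ¬ G.Adj z w) : False := by
  classical
  have hz' : ∀ w, ¬ G.Adj w z := fun w h => hz w h.symm
  have hinj : Function.Injective ![v, a, b, c, w, z] := by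
    apply inj6 <;> first | assumption | (rintro rfl; simp_all)
  have hwa : ¬ G.Adj w a := fun h => haw h.symm
  have hwb : ¬ G.Adj w b := fun h => hbw h.symm
  have hwc : ¬ G.Adj w c := fun h => hcw h.symm
  have hav := hva.symm
  have hbv := hvb.symm
  have hcv := hvc.symm
  have hwv := hvw.symm
  have hba := hab.symm
  have hca := hac.symm
  have hcb := hbc.symm
  refine h.elim hinj ![0, 2, 2, 2, -3, -3] ![-3, 1, 1, 1, 1, -1]
      ?_ ?_ rfl rfl rfl rfl ?_ ?_ ?_
  · simp [Fin.sum_univ_six]; norm_num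
  · simp [Fin.sum_univ_six]; norm_num
  · simp [Fin.sum_univ_six]; norm_num
  · simp [Fin.sum_univ_six]; norm_num
  · simp [Fin.sum_univ_six, hva, hav, hvb, hbv, hvc, hcv, hvw, hwv, hab, hba, hac, hca, hbc, hcb,
      haw, hwa, hbw, hwb, hcw, hwc, hz, hz']
    norm_num

end configs

section main

variable {V : Type*} [Fintype V] [DecidableEq V] {G : SimpleGraph V} [DecidableRel G.Adj]

/-- Non-neighbours of a vertex of maximum degree are isolated. -/
lemma Spr.isolated_of_not_adj (h : Spr G) {v : V} (hmax : ∀ w, G.degree w ≤ G.degree v) {w : V}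
    (hwv : w ≠ v) (hvw : ¬ G.Adj v w) : ∀ x, ¬ G.Adj w x := by
  intro x hwx
  have hxv : x ≠ v := by rintro rfl; exact hvw hwx.symm
  have : ∃ y, G.Adj v y ∧ y ≠ x ∧ ¬ G.Adj x y := by
    by_contra hcon
    push Not at hcon
    have hsub : insert w ((G.neighborFinset v).erase x) ⊆ G.neighborFinset x := by
      intro u hu
      rw [mem_insert, mem_erase] at hu
      rw [SimpleGraph.mem_neighborFinset] at *
      rcases hu with rfl | ⟨h1, h2⟩
      · exact hwx.symm
      · exact hcon u h2 h1
    have hwn : w ∉ (G.neighborFinset v).erase x := by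
      intro hw
      rw [mem_erase, SimpleGraph.mem_neighborFinset] at hw
      exact hvw hw.2
    by_cases hvx : G.Adj v x
    · have hsub2 : insert v (insert w ((G.neighborFinset v).erase x)) ⊆ G.neighborFinset x := by
        apply insert_subset _ hsub
        rw [SimpleGraph.mem_neighborFinset]; exact hvx.symm
      have h1 := card_le_card hsub2
      rw [card_insert_of_notMem, card_insert_of_notMem hwn, card_erase_of_mem,
        SimpleGraph.card_neighborFinset_eq_degree, SimpleGraph.card_neighborFinset_eq_degree] at h1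
      · have h2 := hmax x
        have h3 : 0 < G.degree v := by
          rw [SimpleGraph.degree_pos_iff_exists_adj]; exact ⟨x, hvx⟩
        omega
      · rw [SimpleGraph.mem_neighborFinset]; exact hvx
      · rw [mem_insert, mem_erase, SimpleGraph.mem_neighborFinset]
        rintro (h | h)
        · exact hwv h.symm
        · exact G.irrefl h.2
    · have h1 := card_le_card hsub
      rw [card_insert_of_notMem hwn, erase_eq_of_notMem,
        SimpleGraph.card_neighborFinset_eq_degree, SimpleGraph.card_neighborFinset_eq_degree] at h1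
      · have h2 := hmax x
        omega
      · rw [SimpleGraph.mem_neighborFinset]; exact hvx
  obtain ⟨y, hvy, hyx, hxy⟩ := this
  refine h.no_switch (a := v) (b := y) (c := x) (d := w) hvy hwx.symm (fun h => hxy h.symm)
    (fun h => hvw h.symm) hxv.symm ?_ hyx hwv
  rintro rfl; exact hvw hvy

/-- The key non-divisibility statement. -/
theorem Spr.not_dvd_of_isolated (h : Spr G) (hn : 5 ≤ Fintype.card V) {z a b : V}
    (hz : ∀ w, ¬ G.Adj z w) (hab : G.Adj a b) : ¬ (Fintype.card V ∣ ∑ i, G.degree i) := by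
  obtain ⟨v, -, hv⟩ := exists_max_image (univ : Finset V) (fun v => G.degree v) ⟨a, mem_univ _⟩
  have hmax : ∀ w, G.degree w ≤ G.degree v := fun w => hv w (mem_univ _)
  have hdeg : 0 < G.degree v := by
    have : 0 < G.degree a := by
      rw [SimpleGraph.degree_pos_iff_exists_adj]; exact ⟨b, hab⟩
    exact lt_of_lt_of_le this (hmax a)
  set L := G.neighborFinset v with hL
  have hLmem : ∀ u, u ∈ L ↔ G.Adj v u := fun u => by rw [hL, SimpleGraph.mem_neighborFinset]
  have hLcard : L.card = G.degree v := by rw [hL, SimpleGraph.card_neighborFinset_eq_degree]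
  set Z := (univ : Finset V) \ insert v L with hZ
  have hZmem : ∀ u, u ∈ Z ↔ u ≠ v ∧ ¬ G.Adj v u := by
    intro u
    rw [hZ, mem_sdiff, mem_insert, hLmem]
    simp
  have hZiso : ∀ u ∈ Z, ∀ w, ¬ G.Adj u w := by
    intro u hu
    rw [hZmem] at hu
    exact h.isolated_of_not_adj hmax hu.1 hu.2
  have hvL : v ∉ L := by rw [hLmem]; exact G.irrefl
  have hcard : Fintype.card V = 1 + L.card + Z.card := by
    have h1 := card_sdiff_add_card_eq_card (subset_univ (insert v L))
    rw [card_insert_of_notMem hvL, card_univ] at h1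
    rw [← hZ] at h1
    omega
  have hzZ : z ∈ Z := by
    rw [hZmem]
    constructor
    · rintro rfl
      rw [SimpleGraph.degree_pos_iff_exists_adj] at hdeg
      obtain ⟨w, hw⟩ := hdeg
      exact hz w hw
    · intro h; exact hz v h.symm
  have hZpos : 0 < Z.card := card_pos.2 ⟨z, hzZ⟩
  -- the set of ordered edges inside `L`
  set E := (L ×ˢ L).filter (fun p => G.Adj p.1 p.2) with hE
  have hEmem : ∀ p, p ∈ E ↔ G.Adj v p.1 ∧ G.Adj v p.2 ∧ G.Adj p.1 p.2 := by
    intro p; rw [hE, mem_filter, mem_product, hLmem, hLmem]; tauto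
  have hEcard : E.card = ∑ u ∈ L, (L.filter (fun w => G.Adj u w)).card := by
    rw [hE, card_filter, sum_product]
    apply sum_congr rfl
    intro u _
    rw [card_filter]
  have hsum : ∑ i, G.degree i = 2 * L.card + E.card := by
    have h1 : (univ : Finset V) = Z ∪ insert v L := by
      rw [hZ]; exact (sdiff_union_of_subset (subset_univ _)).symm
    have hdisj : Disjoint Z (insert v L) := by rw [hZ]; exact sdiff_disjoint
    rw [h1, sum_union hdisj, sum_insert hvL]
    have h2 : ∑ i ∈ Z, G.degree i = 0 := by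
      apply sum_eq_zero
      intro u hu
      by_contra hne
      have : 0 < G.degree u := Nat.pos_of_ne_zero hne
      rw [SimpleGraph.degree_pos_iff_exists_adj] at this
      obtain ⟨w, hw⟩ := this
      exact hZiso u hu w hw
    have h3 : ∀ u ∈ L, G.degree u = 1 + (L.filter (fun w => G.Adj u w)).card := by
      intro u hu
      have : G.neighborFinset u = insert v (L.filter (fun w => G.Adj u w)) := by
        ext w
        rw [SimpleGraph.mem_neighborFinset, mem_insert, mem_filter]
        constructor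
        · intro huw
          by_cases hwv : w = v
          · left; exact hwv
          · right
            refine ⟨?_, huw⟩
            rw [hLmem]
            by_contra hvw
            exact h.isolated_of_not_adj hmax hwv hvw u huw.symm
        · rintro (rfl | h)
          · exact ((hLmem u).1 hu).symm
          · exact h.2
      rw [← SimpleGraph.card_neighborFinset_eq_degree, this, card_insert_of_notMem]
      · omega
      · intro hv'; rw [mem_filter] at hv'; exact hvL hv'.1
    rw [h2, sum_congr rfl h3, sum_add_distrib, ← hEcard, ← hLcard]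
    simp
    omega
  have hEsub : E ⊆ L.offDiag := by
    intro p hp
    rw [hEmem] at hp
    rw [mem_offDiag, hLmem, hLmem]
    exact ⟨hp.1, hp.2.1, hp.2.2.ne⟩
  have hEle : E.card ≤ L.card * L.card - L.card := by
    rw [← offDiag_card]; exact card_le_card hEsub
  rw [hsum]
  intro hdvd
  rw [hcard] at hdvd hn
  rw [← hLcard] at hdeg
  by_cases hl1 : L.card = 1
  · rw [hl1] at hdvd hEle hn
    have : E.card = 0 := by omega
    rw [this] at hdvd
    have := Nat.le_of_dvd (by norm_num) hdvd
    omega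
  have hl2 : 2 ≤ L.card := by omega
  by_cases hZ3 : 3 ≤ Z.card
  · obtain ⟨x, y, w, hx, hy, hw, hxy, hxw, hyw⟩ := two_lt_card_iff.1 hZ3
    obtain ⟨a', b', ha', hb', hab'⟩ := one_lt_card_iff.1 hl2
    exact h.no_two_three ((hLmem _).1 ha') ((hLmem _).1 hb') hab' hxy hxw hyw (hZiso x hx)
      (hZiso y hy) (hZiso w hw)
  by_cases hZ2 : Z.card = 2
  · obtain ⟨x, y, hx, hy, hxy⟩ := one_lt_card_iff.1 (by omega : 1 < Z.card)
    by_cases hl3 : 3 ≤ L.card
    · obtain ⟨a', b', c', ha', hb', hc', hab', hac', hbc'⟩ := two_lt_card_iff.1 hl3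
      exact h.no_three_two ((hLmem _).1 ha') ((hLmem _).1 hb') ((hLmem _).1 hc') hab' hac' hbc'
        hxy (hZiso x hx) (hZiso y hy)
    · have hl : L.card = 2 := by omega
      rw [hl, hZ2] at hdvd
      rw [hl] at hEle
      -- `E.card` is even
      have hEven : E.card ≠ 1 := by
        intro h1
        obtain ⟨p, hp⟩ := card_eq_one.1 h1
        have h2 : p ∈ E := by rw [hp]; exact mem_singleton_self _
        have h3 : (p.2, p.1) ∈ E := by
          rw [hEmem] at h2 ⊢; exact ⟨h2.2.1, h2.1, h2.2.2.symm⟩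
        rw [hp, mem_singleton] at h3
        have h4 := congrArg Prod.fst h3
        rw [hEmem] at h2
        exact h2.2.2.ne h4.symm
      obtain ⟨k, hk⟩ := hdvd
      omega
  have hZ1 : Z.card = 1 := by omega
  rw [hZ1] at hdvd hn
  have hl3 : 3 ≤ L.card := by omega
  obtain ⟨k, hk⟩ := hdvd
  have hE4 : 4 ≤ E.card := by
    by_contra hlt
    have h1 : 2 * L.card + E.card < 2 * (1 + L.card + 1) := by omega
    have h2 : (1 + L.card + 1) < 2 * L.card + E.card := by omega
    rw [hk] at h1 h2
    have h3 : k < 2 := by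
      by_contra hk2
      have : (1 + L.card + 1) * 2 ≤ (1 + L.card + 1) * k := Nat.mul_le_mul_left _ (by omega)
      omega
    have h4 : 1 < k := by
      by_contra hk2
      have : (1 + L.card + 1) * k ≤ (1 + L.card + 1) * 1 := Nat.mul_le_mul_left _ (by omega)
      omega
    omega
  have hElt : E.card < L.card * L.card - L.card := by
    rcases lt_or_eq_of_le hEle with h1 | h1
    · exact h1
    · exfalso
      rw [h1] at hk
      have hkz : (2 * (L.card : ℤ) + ((L.card : ℤ) * L.card - L.card)) = (1 + L.card + 1) * k := by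
        have h2 : L.card ≤ L.card * L.card := Nat.le_mul_self _
        have := congrArg (Nat.cast : ℕ → ℤ) hk
        push_cast [Nat.cast_sub h2] at this
        linarith
      have hd : ((L.card : ℤ) + 2) ∣ 2 := by
        refine ⟨(k : ℤ) - ((L.card : ℤ) - 1), ?_⟩
        linear_combination hkz
      have := Int.le_of_dvd (by norm_num) hd
      omega
  -- a non-adjacent pair
  obtain ⟨pq, hpq, hpqE⟩ : ∃ pq ∈ L.offDiag, pq ∉ E := by
    by_contra hcon
    push Not at hcon
    have := card_le_card (fun x hx => hcon x hx : L.offDiag ⊆ E)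
    rw [offDiag_card] at this
    omega
  obtain ⟨p, q⟩ := pq
  rw [mem_offDiag, hLmem, hLmem] at hpq
  obtain ⟨hvp, hvq, hpq'⟩ := hpq
  simp only at hvp hvq hpq'
  have hnpq : ¬ G.Adj p q := by
    intro hadj; apply hpqE; rw [hEmem]; exact ⟨hvp, hvq, hadj⟩
  -- transitivity
  have htr : ∀ x u w, G.Adj v x → G.Adj v u → G.Adj v w → G.Adj x u → G.Adj x w → u ≠ w →
      G.Adj u w := by
    intro x u w hvx hvu hvw hxu hxw huw
    by_contra hn'
    exact h.no_diamond hvx hvu hvw hxu hxw hn' huw hz
  -- two different edges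
  obtain ⟨xy, hxy⟩ := card_pos.1 (by omega : 0 < E.card)
  obtain ⟨x, y⟩ := xy
  have hxy' := hxy
  rw [hEmem] at hxy'
  obtain ⟨hvx, hvy, hadj⟩ := hxy'
  simp only at hvx hvy hadj
  obtain ⟨x'y', h1, h2⟩ : ∃ r ∈ E, r ∉ ({(x, y), (y, x)} : Finset (V × V)) := by
    by_contra hcon
    push Not at hcon
    have := card_le_card (fun r hr => hcon r hr : E ⊆ ({(x, y), (y, x)} : Finset (V × V)))
    have h3 := card_le_two (a := (x, y)) (b := (y, x))
    omega
  obtain ⟨x', y'⟩ := x'y'
  rw [hEmem] at h1
  obtain ⟨hvx', hvy', hadj'⟩ := h1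
  simp only at hvx' hvy' hadj'
  have hne1 : ¬ (x' = x ∧ y' = y) := by
    rintro ⟨rfl, rfl⟩; exact h2 (by simp)
  have hne2 : ¬ (x' = y ∧ y' = x) := by
    rintro ⟨rfl, rfl⟩; exact h2 (by simp)
  -- a vertex outside the class of `x`
  obtain ⟨w, hvw, hwx, hnxw⟩ : ∃ w, G.Adj v w ∧ w ≠ x ∧ ¬ G.Adj x w := by
    by_contra hcon
    push Not at hcon
    by_cases hpx : p = x
    · subst hpx
      exact hnpq (hcon q hvq hpq'.symm)
    · by_cases hqx : q = x
      · subst hqx
        exact hnpq (hcon p hvp hpx).symm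
      · exact hnpq (htr x p q hvx hvp hvq (hcon p hvp hpx) (hcon q hvq hqx) hpq')
  have hwy : w ≠ y := by rintro rfl; exact hnxw hadj
  have hnyw : ¬ G.Adj y w := by
    intro hyw
    exact hnxw (htr y x w hvy hvx hvw hadj.symm hyw hwx.symm)
  -- triangle case
  have tri : ∀ t, G.Adj v t → G.Adj x t → t ≠ y → False := by
    intro t hvt hxt hty
    have hyt : G.Adj y t := htr x y t hvx hvy hvt hadj hxt hty.symm
    have htw : t ≠ w := by rintro rfl; exact hnxw hxt
    have hntw : ¬ G.Adj t w := by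
      intro h'
      exact hnxw (htr t x w hvt hvx hvw hxt.symm h' hwx.symm)
    exact h.no_kite hvx hvy hvt hvw hadj hxt hyt hnxw hnyw hntw hwx.symm hwy.symm htw hz
  by_cases hc1 : x' = x
  · subst hc1
    exact tri y' hvy' hadj' (fun e => hne1 ⟨rfl, e⟩)
  by_cases hc2 : y' = x
  · subst hc2
    exact tri x' hvx' hadj'.symm (fun e => hne2 ⟨e, rfl⟩)
  by_cases hc3 : G.Adj x x'
  · by_cases hc4 : x' = y
    · subst hc4
      have : G.Adj x y' := htr x' x y' hvx' hvx hvy' hadj.symm hadj' (fun e => hc2 e.symm)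
      exact tri y' hvy' this hadj'.ne'
    · exact tri x' hvx' hc3 hc4
  by_cases hc4 : G.Adj x y'
  · exact hc3 (htr y' x x' hvy' hvx hvx' hc4.symm hadj'.symm (fun e => hc1 e.symm))
  have hx'y : x' ≠ y := by rintro rfl; exact hc3 hadj
  have hy'y : y' ≠ y := by rintro rfl; exact hc4 hadj
  have hnyx' : ¬ G.Adj y x' := by
    intro h'
    exact hc3 (htr y x x' hvy hvx hvx' hadj.symm h' (fun e => hc1 e.symm))
  exact h.no_switch (a := x) (b := y) (c := x') (d := y') hadj hadj' hnyx'
    (fun h' => hc4 h'.symm) (fun e => hc1 e.symm) hy'y.symm hx'y.symm hc2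

end main

section compl

variable {V : Type*} [Fintype V] [DecidableEq V] {G : SimpleGraph V}

omit [DecidableEq V] in
lemma qG_eq [DecidableRel G.Adj] (x : V → ℝ) :
    qG G x = ∑ i, ∑ j, if G.Adj i j then x i * x j else 0 := by
  rw [qG]
  apply sum_congr rfl; intro i _
  apply sum_congr rfl; intro j _
  congr

lemma qG_compl (x : V → ℝ) (hx : ∑ i, x i = 0) : qG Gᶜ x = - nsq x - qG G x := by
  classical
  rw [qG_eq, qG_eq]
  have h1 : ∀ i j, (if Gᶜ.Adj i j then x i * x j else 0) =
      x i * x j - (if i = j then x i * x j else 0) - (if G.Adj i j then x i * x j else 0) := by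
    intro i j
    by_cases hij : i = j
    · subst hij; simp
    · by_cases hadj : G.Adj i j <;> simp [SimpleGraph.compl_adj, hij, hadj]
  simp_rw [h1, sum_sub_distrib]
  have h2 : ∑ i, ∑ j, x i * x j = 0 := by
    rw [← Finset.sum_mul_sum, hx, zero_mul]
  have h3 : ∑ i, ∑ j, (if i = j then x i * x j else 0) = nsq x := by
    rw [nsq]
    apply sum_congr rfl; intro i _
    rw [sum_ite_eq, if_pos (mem_univ i), sq]
  rw [h2, h3]
  ring

lemma Spr.compl (h : Spr G) : Spr Gᶜ := by
  intro x y hx hy hnx hny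
  rw [qG_compl x hx, qG_compl y hy]
  have := h y x hy hx hny hnx
  nlinarith

theorem Spr.not_dvd [DecidableRel G.Adj] (h : Spr G) (hn : 5 ≤ Fintype.card V) {a b c d : V}
    (hab : G.Adj a b) (hcd : c ≠ d) (hncd : ¬ G.Adj c d) :
    ¬ (Fintype.card V ∣ ∑ i, G.degree i) := by
  by_cases hiso : ∃ z, ∀ w, ¬ G.Adj z w
  · obtain ⟨z, hz⟩ := hiso
    exact h.not_dvd_of_isolated hn hz hab
  · obtain ⟨v, -, hv⟩ := exists_max_image (univ : Finset V) (fun v => G.degree v) ⟨a, mem_univ _⟩
    have hmax : ∀ w, G.degree w ≤ G.degree v := fun w => hv w (mem_univ _)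
    have hdom : ∀ w, w ≠ v → G.Adj v w := by
      intro w hw
      by_contra hvw
      exact hiso ⟨w, h.isolated_of_not_adj hmax hw hvw⟩
    have h1 := h.compl.not_dvd_of_isolated hn (z := v) (a := c) (b := d) (by
      intro w hw
      rw [SimpleGraph.compl_adj] at hw
      exact hw.2 (hdom w hw.1.symm)) (by rw [SimpleGraph.compl_adj]; exact ⟨hcd, hncd⟩)
    intro hdvd
    apply h1
    have h2 : ∑ i, Gᶜ.degree i + ∑ i, G.degree i = Fintype.card V * (Fintype.card V - 1) := by
      rw [← sum_add_distrib]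
      have : ∀ i, Gᶜ.degree i + G.degree i = Fintype.card V - 1 := by
        intro i
        rw [SimpleGraph.degree_compl]
        have := G.degree_lt_card_verts i
        omega
      simp_rw [this]
      rw [sum_const, card_univ, smul_eq_mul]
    have h3 : Fintype.card V ∣ ∑ i, Gᶜ.degree i + ∑ i, G.degree i := by
      rw [h2]; exact dvd_mul_right _ _
    exact (Nat.dvd_add_left hdvd).1 h3

end compl

end Pool.Agent.Lib.MP_e61cf5_co
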