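import Pool.Agent.Lib.MP_e61cf5_co.Digraph

set_option autoImplicit false

namespace Pool.Agent.Lib.MP_e61cf5_co

open Finset

namespace Dig

variable {n : ℕ} (Γ : Dig n)

lemma q_smul (c : ℝ) (x : Fin n → ℝ) : Γ.q (fun i => c * x i) = c ^ 2 * Γ.q x := by
  rw [q_eq, q_eq, mul_sub, mul_sum, mul_sum]
  congr 1
  · apply sum_congr rfl; intro i _; ring
  · apply sum_congr rfl; intro i _
    rw [mul_sum]
    apply sum_congr rfl; intro j _; ring

lemma mem_realValues {x : Fin n → ℝ} (hx : ∑ i, x i = 0) (h1 : nsq x = 1) :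
    Γ.q x ∈ Γ.realValues := ⟨x, hx, h1, rfl⟩

lemma realValues_bound : ∃ C : ℝ, ∀ t ∈ Γ.realValues, |t| ≤ C := by
  refine ⟨∑ i, (Γ.outDeg i : ℝ) + ∑ i, ∑ j, (Γ.A i j : ℝ), ?_⟩
  rintro t ⟨x, hx, h1, rfl⟩
  have hq : dotProduct x (Γ.lap.mulVec x) = Γ.q x := rfl
  rw [hq, q_eq]
  have hle : ∀ i, x i ^ 2 ≤ 1 := by
    intro i
    rw [← h1]
    exact single_le_sum (f := fun i => x i ^ 2) (fun i _ => sq_nonneg (x i)) (mem_univ i)
  have habs : ∀ i, |x i| ≤ 1 := by
    intro i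
    have := hle i
    rw [← sq_abs] at this
    exact (sq_le_one_iff₀ (abs_nonneg _)).1 this
  have t1 : |∑ i, (Γ.outDeg i : ℝ) * x i ^ 2| ≤ ∑ i, (Γ.outDeg i : ℝ) := by
    refine (abs_sum_le_sum_abs _ _).trans (sum_le_sum fun i _ => ?_)
    rw [abs_mul, abs_of_nonneg (sq_nonneg (x i)), abs_of_nonneg (Nat.cast_nonneg _)]
    calc (Γ.outDeg i : ℝ) * x i ^ 2 ≤ (Γ.outDeg i : ℝ) * 1 :=
          mul_le_mul_of_nonneg_left (hle i) (Nat.cast_nonneg _)
      _ = _ := mul_one _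
  have t2 : |∑ i, ∑ j, (Γ.A i j : ℝ) * (x i * x j)| ≤ ∑ i, ∑ j, (Γ.A i j : ℝ) := by
    refine (abs_sum_le_sum_abs _ _).trans (sum_le_sum fun i _ => ?_)
    refine (abs_sum_le_sum_abs _ _).trans (sum_le_sum fun j _ => ?_)
    rw [abs_mul, abs_of_nonneg (Nat.cast_nonneg (Γ.A i j)), abs_mul]
    calc (Γ.A i j : ℝ) * (|x i| * |x j|) ≤ (Γ.A i j : ℝ) * 1 := by
          apply mul_le_mul_of_nonneg_left _ (Nat.cast_nonneg _)
          exact mul_le_one₀ (habs i) (abs_nonneg _) (habs j)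
      _ = _ := mul_one _
  exact (abs_sub _ _).trans (add_le_add t1 t2)

lemma alpha_le {t : ℝ} (ht : t ∈ Γ.realValues) : Γ.alpha ≤ t := by
  obtain ⟨C, hC⟩ := Γ.realValues_bound
  exact csInf_le ⟨-C, fun s hs => (abs_le.1 (hC s hs)).1⟩ ht

lemma le_beta {t : ℝ} (ht : t ∈ Γ.realValues) : t ≤ Γ.beta := by
  obtain ⟨C, hC⟩ := Γ.realValues_bound
  exact le_csSup ⟨C, fun s hs => (abs_le.1 (hC s hs)).2⟩ ht

lemma nsq_nonneg (x : Fin n → ℝ) : 0 ≤ nsq x := sum_nonneg fun i _ => sq_nonneg _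

lemma bounds (x : Fin n → ℝ) (hx : ∑ i, x i = 0) :
    Γ.alpha * nsq x ≤ Γ.q x ∧ Γ.q x ≤ Γ.beta * nsq x := by
  rcases eq_or_lt_of_le (nsq_nonneg x) with h | h
  · have h0 : ∀ i, x i = 0 := by
      intro i
      have := (sum_eq_zero_iff_of_nonneg (fun i _ => sq_nonneg (x i))).1 h.symm i (mem_univ i)
      exact pow_eq_zero_iff (two_ne_zero) |>.1 this
    have hq : Γ.q x = 0 := by
      rw [q_eq]
      simp [h0]
    rw [hq, ← h]
    simp
  · set s := Real.sqrt (nsq x) with hs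
    have hspos : 0 < s := Real.sqrt_pos.2 h
    have hs2 : s ^ 2 = nsq x := Real.sq_sqrt h.le
    have hy0 : ∑ i, s⁻¹ * x i = 0 := by rw [← mul_sum, hx, mul_zero]
    have hy1 : nsq (fun i => s⁻¹ * x i) = 1 := by
      have : nsq (fun i => s⁻¹ * x i) = (s⁻¹) ^ 2 * nsq x := by
        rw [nsq, nsq, mul_sum]; apply sum_congr rfl; intro i _; ring
      rw [this, ← hs2, inv_pow]
      exact inv_mul_cancel₀ (by positivity)
    have hm := Γ.mem_realValues hy0 hy1
    have h1 := Γ.alpha_le hm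
    have h2 := Γ.le_beta hm
    rw [q_smul, inv_pow, hs2] at h1 h2
    constructor
    · rw [← div_eq_inv_mul, le_div_iff₀ h] at h1; exact h1
    · rw [← div_eq_inv_mul, div_le_iff₀ h] at h2; exact h2

lemma q_pair {i j : Fin n} (hij : i ≠ j) :
    Γ.q (fun k => (if k = i then 1 else 0) - (if k = j then 1 else 0)) = Γ.f i j := by
  rw [q_eq]
  have e1 : ∀ k, (Γ.outDeg k : ℝ) * ((if k = i then 1 else 0) - (if k = j then 1 else 0)) ^ 2 =
      (if k = i then (Γ.outDeg k : ℝ) else 0) + (if k = j then (Γ.outDeg k : ℝ) else 0) := by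
    intro k
    by_cases h1 : k = i <;> by_cases h2 : k = j <;> simp_all
  have e2 : ∀ k l, (Γ.A k l : ℝ) * (((if k = i then 1 else 0) - (if k = j then 1 else 0)) *
      ((if l = i then 1 else 0) - (if l = j then 1 else 0))) =
      (if k = i then ((if l = i then (Γ.A k l : ℝ) else 0) - (if l = j then (Γ.A k l : ℝ) else 0))
        else 0) -
      (if k = j then ((if l = i then (Γ.A k l : ℝ) else 0) - (if l = j then (Γ.A k l : ℝ) else 0))
        else 0) := by
    intro k l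
    by_cases h1 : k = i <;> by_cases h2 : k = j <;> by_cases h3 : l = i <;>
      by_cases h4 : l = j <;> simp_all
  simp_rw [e1, e2]
  rw [sum_add_distrib, sum_ite_eq', sum_ite_eq', if_pos (mem_univ i), if_pos (mem_univ j)]
  have e3 : ∀ k, ∑ l, ((if k = i then ((if l = i then (Γ.A k l : ℝ) else 0) -
        (if l = j then (Γ.A k l : ℝ) else 0)) else 0) -
      (if k = j then ((if l = i then (Γ.A k l : ℝ) else 0) - (if l = j then (Γ.A k l : ℝ) else 0))
        else 0)) = (if k = i then ((Γ.A k i : ℝ) - Γ.A k j) else 0) -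
          (if k = j then ((Γ.A k i : ℝ) - Γ.A k j) else 0) := by
    intro k
    rw [sum_sub_distrib]
    congr 1
    · split_ifs
      · rw [sum_sub_distrib, sum_ite_eq', sum_ite_eq', if_pos (mem_univ i), if_pos (mem_univ j)]
      · simp
    · split_ifs
      · rw [sum_sub_distrib, sum_ite_eq', sum_ite_eq', if_pos (mem_univ i), if_pos (mem_univ j)]
      · simp
  simp_rw [e3]
  rw [sum_sub_distrib, sum_ite_eq', sum_ite_eq', if_pos (mem_univ i), if_pos (mem_univ j),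
    Γ.A_self, Γ.A_self, f]
  push_cast
  ring

lemma sum_pair {i j : Fin n} :
    ∑ k, ((if k = i then (1 : ℝ) else 0) - (if k = j then 1 else 0)) = 0 := by
  rw [sum_sub_distrib, sum_ite_eq', sum_ite_eq', if_pos (mem_univ i), if_pos (mem_univ j), sub_self]

lemma nsq_pair {i j : Fin n} (hij : i ≠ j) :
    nsq (fun k => (if k = i then (1 : ℝ) else 0) - (if k = j then 1 else 0)) = 2 := by
  rw [nsq]
  have e1 : ∀ k, ((if k = i then (1 : ℝ) else 0) - (if k = j then 1 else 0)) ^ 2 =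
      (if k = i then 1 else 0) + (if k = j then 1 else 0) := by
    intro k
    by_cases h1 : k = i <;> by_cases h2 : k = j <;> simp_all
  simp_rw [e1]
  rw [sum_add_distrib, sum_ite_eq', sum_ite_eq', if_pos (mem_univ i), if_pos (mem_univ j)]
  norm_num

lemma f_bounds {i j : Fin n} (hij : i ≠ j) :
    2 * Γ.alpha ≤ Γ.f i j ∧ (Γ.f i j : ℝ) ≤ 2 * Γ.beta := by
  have h := Γ.bounds _ (sum_pair (i := i) (j := j))
  rw [Γ.q_pair hij, nsq_pair hij] at h
  constructor <;> linarith [h.1, h.2]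

lemma f_close (h : Γ.spread < 1) {i j k l : Fin n} (hij : i ≠ j) (hkl : k ≠ l) :
    Γ.f i j ≤ Γ.f k l + 1 := by
  have h1 := Γ.f_bounds hij
  have h2 := Γ.f_bounds hkl
  rw [spread] at h
  have h3 : (Γ.f i j : ℝ) < Γ.f k l + 2 := by linarith [h1.2, h2.1]
  have h4 : Γ.f i j < Γ.f k l + 2 := by exact_mod_cast h3
  omega

lemma spr {m : ℕ} (hm : ∀ i j, i ≠ j → Γ.f i j = m ∨ Γ.f i j = m + 1) (h : Γ.spread < 1) :
    Spr (Γ.gr m) := by
  intro x y hx hy hnx hny
  have e1 := Γ.q_eq_gr hm x hx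
  have e2 := Γ.q_eq_gr hm y hy
  have b1 := (Γ.bounds x hx).1
  have b2 := (Γ.bounds y hy).2
  have hpos : 0 < nsq x * nsq y := mul_pos hnx hny
  have c1 : Γ.alpha * nsq x * nsq y ≤ Γ.q x * nsq y := mul_le_mul_of_nonneg_right b1 hny.le
  have c2 : Γ.q y * nsq x ≤ Γ.beta * nsq y * nsq x := mul_le_mul_of_nonneg_right b2 hnx.le
  rw [spread] at h
  have c3 : (Γ.beta - Γ.alpha) * (nsq x * nsq y) < 1 * (nsq x * nsq y) :=
    mul_lt_mul_of_pos_right h hpos
  have e1' : qG (Γ.gr m) x = m * nsq x - 2 * Γ.q x := by linarith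
  have e2' : qG (Γ.gr m) y = m * nsq y - 2 * Γ.q y := by linarith
  rw [e1', e2']
  nlinarith

/-- If all weights are equal then the spread is zero. -/
lemma spread_eq_zero {m : ℕ} (hn : 2 ≤ n) (hm : ∀ i j, i ≠ j → Γ.f i j = m) : Γ.spread = 0 := by
  have hq : ∀ x : Fin n → ℝ, ∑ i, x i = 0 → Γ.q x = (m / 2 : ℝ) * nsq x := by
    intro x hx
    rw [Γ.q_eq_gr (m := m) (fun i j h => Or.inl (hm i j h)) x hx]
    have : qG (Γ.gr m) x = 0 := by
      rw [qG_eq]
      apply sum_eq_zero; intro i _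
      apply sum_eq_zero; intro j _
      rw [if_neg]
      rw [gr_adj]
      rintro ⟨h1, h2⟩
      rw [hm i j h1] at h2
      omega
    rw [this]; ring
  have hset : Γ.realValues = {(m / 2 : ℝ)} := by
    ext t
    rw [Set.mem_singleton_iff]
    constructor
    · rintro ⟨x, hx, h1, rfl⟩
      have h2 := hq x hx
      have h1' : nsq x = 1 := h1
      rw [h1', mul_one] at h2
      exact h2
    · rintro rfl
      have h01 : (⟨0, by omega⟩ : Fin n) ≠ ⟨1, by omega⟩ := by
        intro h; exact absurd (congrArg Fin.val h) (by norm_num)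
      set x : Fin n → ℝ := fun k => (if k = (⟨0, by omega⟩ : Fin n) then 1 else 0) -
        (if k = (⟨1, by omega⟩ : Fin n) then 1 else 0) with hxdef
      have hx0 : ∑ k, x k = 0 := sum_pair
      have hx2 : nsq x = 2 := nsq_pair h01
      set s := Real.sqrt 2
      have hs2 : s ^ 2 = 2 := Real.sq_sqrt (by norm_num)
      have hspos : 0 < s := Real.sqrt_pos.2 (by norm_num)
      refine ⟨fun k => s⁻¹ * x k, by rw [← mul_sum, hx0, mul_zero], ?_, ?_⟩
      · have : ∑ i, (s⁻¹ * x i) ^ 2 = (s⁻¹) ^ 2 * nsq x := by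
          rw [nsq, mul_sum]; apply sum_congr rfl; intro i _; ring
        rw [this, hx2, inv_pow, hs2]; norm_num
      · have : dotProduct (fun k => s⁻¹ * x k) (Γ.lap.mulVec (fun k => s⁻¹ * x k)) =
            Γ.q (fun k => s⁻¹ * x k) := rfl
        rw [this, q_smul, hq x hx0, hx2, inv_pow, hs2]; ring
  rw [spread, alpha, beta, hset, csInf_singleton, csSup_singleton, sub_self]

end Dig

end Pool.Agent.Lib.MP_e61cf5_co
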