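import Pool.Agent.Lib.MP_e61cf5_co.Gap

set_option autoImplicit false

/-!
# Sanity checks for the definitions

* a matrix `Q` as in the definition of a polygonal digraph exists;
* `α` and `β` are attained, so they are a minimum and a maximum.
-/

namespace Pool.Agent.Lib.MP_e61cf5_co

open Finset

/-- An orthonormal basis of `e^⊥`, as the columns of a matrix, exists. -/
theorem exists_orthonormal_matrix (n : ℕ) (hn : 1 ≤ n) :
    ∃ Q : Matrix (Fin n) (Fin (n - 1)) ℂ, Q.conjTranspose * Q = 1 ∧ ∀ k, ∑ i, Q i k = 0 := by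
  set e : EuclideanSpace ℂ (Fin n) := WithLp.toLp 2 (fun _ => (1 : ℂ)) with he
  have he0 : e ≠ 0 := by
    intro h
    have := congrArg (fun v : EuclideanSpace ℂ (Fin n) => v ⟨0, hn⟩) h
    simp [he] at this
  set K : Submodule ℂ (EuclideanSpace ℂ (Fin n)) := (Submodule.span ℂ {e})ᗮ with hK
  have hfin : Module.finrank ℂ K = n - 1 := by
    have h1 := Submodule.finrank_add_finrank_orthogonal (Submodule.span ℂ {e})
    rw [finrank_span_singleton he0, finrank_euclideanSpace_fin] at h1
    have h2 : Module.finrank ℂ K = Module.finrank ℂ ((Submodule.span ℂ {e})ᗮ : Submodule ℂ _) := rfl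
    omega
  set b := (stdOrthonormalBasis ℂ K).reindex (finCongr hfin) with hb
  refine ⟨Matrix.of fun i k => (b k : EuclideanSpace ℂ (Fin n)) i, ?_, ?_⟩
  · ext k l
    have h1 := b.orthonormal
    rw [orthonormal_iff_ite] at h1
    have h2 := h1 k l
    rw [Submodule.coe_inner, PiLp.inner_apply] at h2
    rw [Matrix.mul_apply, Matrix.one_apply, ← h2]
    apply sum_congr rfl; intro i _
    simp [Matrix.conjTranspose_apply, mul_comm]
  · intro k
    have h1 : (b k : EuclideanSpace ℂ (Fin n)) ∈ (Submodule.span ℂ {e})ᗮ := (b k).2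
    have h2 := (Submodule.mem_orthogonal _ _).1 h1 e (Submodule.mem_span_singleton_self e)
    rw [PiLp.inner_apply] at h2
    simpa [he] using h2

namespace Dig

variable {n : ℕ} (Γ : Dig n)

lemma realValues_eq : Γ.realValues = Γ.q '' {x : Fin n → ℝ | ∑ i, x i = 0 ∧ ∑ i, x i ^ 2 = 1} := by
  ext t
  constructor
  · rintro ⟨x, h1, h2, rfl⟩; exact ⟨x, ⟨h1, h2⟩, rfl⟩
  · rintro ⟨x, ⟨h1, h2⟩, rfl⟩; exact ⟨x, h1, h2, rfl⟩

lemma isCompact_sphere : IsCompact {x : Fin n → ℝ | ∑ i, x i = 0 ∧ ∑ i, x i ^ 2 = 1} := by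
  apply Metric.isCompact_of_isClosed_isBounded
  · apply IsClosed.inter
    · exact isClosed_eq (by fun_prop) continuous_const
    · exact isClosed_eq (by fun_prop) continuous_const
  · apply (Metric.isBounded_closedBall (x := (0 : Fin n → ℝ)) (r := 1)).subset
    rintro x ⟨-, h1⟩
    rw [Metric.mem_closedBall, dist_zero_right, pi_norm_le_iff_of_nonneg zero_le_one]
    intro i
    have hle : x i ^ 2 ≤ 1 := by
      rw [← h1]
      exact single_le_sum (f := fun i => x i ^ 2) (fun i _ => sq_nonneg (x i)) (mem_univ i)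
    rw [Real.norm_eq_abs]
    rw [← sq_abs] at hle
    exact (sq_le_one_iff₀ (abs_nonneg _)).1 hle

lemma isCompact_realValues : IsCompact Γ.realValues := by
  rw [realValues_eq]
  apply isCompact_sphere.image
  have : Γ.q = fun x => dotProduct x (Γ.lap.mulVec x) := rfl
  rw [this]
  simp only [dotProduct, Matrix.mulVec]
  fun_prop

lemma realValues_nonempty (hn : 2 ≤ n) : Γ.realValues.Nonempty := by
  have h01 : (⟨0, by omega⟩ : Fin n) ≠ ⟨1, by omega⟩ := by
    intro h; exact absurd (congrArg Fin.val h) (by norm_num)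
  set x : Fin n → ℝ := fun k => (if k = (⟨0, by omega⟩ : Fin n) then 1 else 0) -
    (if k = (⟨1, by omega⟩ : Fin n) then 1 else 0) with hxdef
  have hx0 : ∑ k, x k = 0 := sum_pair
  have hx2 : nsq x = 2 := nsq_pair h01
  set s := Real.sqrt 2
  have hs2 : s ^ 2 = 2 := Real.sq_sqrt (by norm_num)
  refine ⟨_, fun k => s⁻¹ * x k, by rw [← mul_sum, hx0, mul_zero], ?_, rfl⟩
  have : ∑ i, (s⁻¹ * x i) ^ 2 = (s⁻¹) ^ 2 * nsq x := by
    rw [nsq, mul_sum]; apply sum_congr rfl; intro i _; ring
  rw [this, hx2, inv_pow, hs2]; norm_num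

/-- `α` is a minimum. -/
theorem alpha_isLeast (hn : 2 ≤ n) : IsLeast Γ.realValues Γ.alpha :=
  Γ.isCompact_realValues.isLeast_sInf (Γ.realValues_nonempty hn)

/-- `β` is a maximum. -/
theorem beta_isGreatest (hn : 2 ≤ n) : IsGreatest Γ.realValues Γ.beta :=
  Γ.isCompact_realValues.isGreatest_sSup (Γ.realValues_nonempty hn)

/-- The eigenvalues of `Q* L Q` do not depend on the choice of `Q`. -/
theorem spectrum_eq (hn : 1 ≤ n) (L : Matrix (Fin n) (Fin n) ℂ)
    {Q R : Matrix (Fin n) (Fin (n - 1)) ℂ} (hQ : Q.conjTranspose * Q = 1)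
    (hQ0 : ∀ k, ∑ i, Q i k = 0) (hR : R.conjTranspose * R = 1) (hR0 : ∀ k, ∑ i, R i k = 0) :
    spectrum ℂ (Q.conjTranspose * L * Q) = spectrum ℂ (R.conjTranspose * L * R) := by
  have key : ∀ {Q R : Matrix (Fin n) (Fin (n - 1)) ℂ}, Q.conjTranspose * Q = 1 →
      (∀ k, ∑ i, Q i k = 0) → (∀ k, ∑ i, R i k = 0) → Q * Q.conjTranspose * R = R := by
    intro Q R hQ hQ0 hR0
    ext i k
    have h1 := proj_eq hn hQ hQ0 (fun i => R i k) i
    simp only [hR0 k, zero_div, sub_zero] at h1
    rw [← h1]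
    simp [Matrix.mul_apply, Matrix.mulVec, dotProduct]
  have k1 := key hQ hQ0 hR0
  have k2 := key hR hR0 hQ0
  set U := Q.conjTranspose * R with hU
  set V := R.conjTranspose * Q with hV
  have hUV : U * V = 1 := by
    rw [hU, hV]
    calc Q.conjTranspose * R * (R.conjTranspose * Q) =
        Q.conjTranspose * (R * R.conjTranspose * Q) := by simp only [Matrix.mul_assoc]
      _ = 1 := by rw [k2, hQ]
  have hVU : V * U = 1 := by
    rw [hU, hV]
    calc R.conjTranspose * Q * (Q.conjTranspose * R) =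
        R.conjTranspose * (Q * Q.conjTranspose * R) := by simp only [Matrix.mul_assoc]
      _ = 1 := by rw [k1, hR]
  have k2' : Q.conjTranspose * R * R.conjTranspose = Q.conjTranspose := by
    have h := congrArg Matrix.conjTranspose k2
    simpa [Matrix.conjTranspose_mul, Matrix.mul_assoc] using h
  have hconj : U * (R.conjTranspose * L * R) * V = Q.conjTranspose * L * Q := by
    rw [hU, hV]
    calc Q.conjTranspose * R * (R.conjTranspose * L * R) * (R.conjTranspose * Q) =
        (Q.conjTranspose * R * R.conjTranspose) * L * (R * R.conjTranspose * Q) := by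
          simp only [Matrix.mul_assoc]
      _ = Q.conjTranspose * L * Q := by rw [k2', k2]
  have := spectrum.units_conjugate (R := ℂ) (a := R.conjTranspose * L * R)
    (u := ⟨U, V, hUV, hVU⟩)
  rw [← hconj]
  exact this

/-- Being polygonal does not depend on the choice of `Q`. -/
theorem isPolygonal_iff (hn : 1 ≤ n) : Γ.IsPolygonal ↔
    ∀ Q : Matrix (Fin n) (Fin (n - 1)) ℂ, Q.conjTranspose * Q = 1 → (∀ k, ∑ i, Q i k = 0) →
      Γ.restrictedRange = convexHull ℝ (spectrum ℂ (Q.conjTranspose * Γ.lapC * Q)) := by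
  constructor
  · rintro ⟨R, hR, hR0, h⟩ Q hQ hQ0
    rw [h, spectrum_eq hn Γ.lapC hR hR0 hQ hQ0]
  · intro h
    obtain ⟨Q, hQ, hQ0⟩ := exists_orthonormal_matrix n hn
    exact ⟨Q, hQ, hQ0, h Q hQ hQ0⟩

end Dig

end Pool.Agent.Lib.MP_e61cf5_co
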